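import Pool.Agent.Lib.MP_4e7250_co.Stmts

/-! First facts on degrees, leaves, homomorphisms. -/

namespace Pool.Agent.Lib.MP_4e7250_co

open Finset

namespace BasicAux

variable {V : Type} [Fintype V] (G : SimpleGraph V)

open Classical in
theorem dg_eq (x : V) : dg G x = ((univ.filter fun y => G.Adj x y).card : ℝ) := by
  rw [dg, Finset.card_filter, Nat.cast_sum]
  refine sum_congr rfl fun y _ => ?_
  rw [aa]
  split_ifs <;> simp

theorem aa_nonneg (x y : V) : 0 ≤ aa G x y := by
  rw [aa]
  split_ifs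
  · exact zero_le_one
  · exact le_rfl

theorem aa_adj {x y : V} (h : G.Adj x y) : aa G x y = 1 := if_pos h

theorem aa_comm (x y : V) : aa G x y = aa G y x := by
  by_cases h : G.Adj x y
  · rw [aa_adj G h, aa_adj G h.symm]
  · have h' : ¬ G.Adj y x := fun h2 => h h2.symm
    rw [aa, aa, if_neg h, if_neg h']

open Classical in
theorem mem_lv (x : V) : x ∈ lv G ↔ dg G x = 1 := by
  rw [lv, mem_filter, dg_eq]
  have h : ((univ.filter fun y => G.Adj x y).card : ℝ) = 1 ↔
      (univ.filter fun y => G.Adj x y).card = 1 := by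
    rw [← Nat.cast_one, Nat.cast_inj]
  rw [h, Finset.card_eq_one]
  constructor
  · rintro ⟨-, p, hp⟩
    refine ⟨p, ?_⟩
    ext u
    rw [mem_filter, mem_singleton, ← hp u]
    exact ⟨fun h => h.2, fun h => ⟨mem_univ _, h⟩⟩
  · rintro ⟨p, hp⟩
    refine ⟨mem_univ _, p, fun u => ?_⟩
    rw [← mem_singleton, ← hp, mem_filter]
    exact ⟨fun h => ⟨mem_univ _, h⟩, fun h => h.2⟩

theorem exists_adj (hG : G.Connected) (hV : 2 ≤ Fintype.card V) (x : V) : ∃ y, G.Adj x y := by
  haveI : Nontrivial V := Fintype.one_lt_card_iff_nontrivial.mp (by omega)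
  obtain ⟨y, hy⟩ := exists_ne x
  obtain ⟨p⟩ := hG.preconnected x y
  cases p with
  | nil => exact absurd rfl hy
  | cons h _ => exact ⟨_, h⟩

theorem one_le_dg (hG : G.Connected) (hV : 2 ≤ Fintype.card V) (x : V) : 1 ≤ dg G x := by
  classical
  obtain ⟨y, hy⟩ := exists_adj G hG hV x
  rw [dg_eq]
  have h : 0 < (univ.filter fun y => G.Adj x y).card :=
    Finset.card_pos.mpr ⟨y, mem_filter.mpr ⟨mem_univ _, hy⟩⟩
  have h' : 1 ≤ (univ.filter fun y => G.Adj x y).card := h
  exact_mod_cast h'

theorem not_mem_lv (hG : G.Connected) (hV : 3 ≤ Fintype.card V) {x c : V} (hx : x ∈ lv G)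
    (hc : G.Adj x c) : c ∉ lv G := by
  classical
  intro hc'
  rw [lv, mem_filter] at hx hc'
  obtain ⟨-, p, hp⟩ := hx
  obtain ⟨-, q, hq⟩ := hc'
  have hp' : p = c := ((hp c).mp hc).symm
  have hq' : q = x := ((hq x).mp hc.symm).symm
  subst hp' hq'
  have key : ∀ y z : V, G.Walk y z → (y = q ∨ y = p) → (z = q ∨ z = p) := by
    intro y z w
    induction w with
    | nil => exact fun h => h
    | cons h _ ih =>
      intro h1
      apply ih
      rcases h1 with h1 | h1
      · subst h1
        exact Or.inr ((hp _).mp h)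
      · subst h1
        exact Or.inl ((hq _).mp h)
  have hall : ∀ z : V, z = q ∨ z = p := fun z => by
    obtain ⟨w⟩ := hG.preconnected q z
    exact key q z w (Or.inl rfl)
  have hle : Fintype.card V ≤ 2 := by
    rw [← Finset.card_univ]
    refine (Finset.card_le_card (t := {q, p}) fun z _ => ?_).trans Finset.card_le_two
    rw [mem_insert, mem_singleton]
    exact hall z
  omega

theorem two_le_dg (hG : G.Connected) (hV : 2 ≤ Fintype.card V) {x : V} (hx : x ∉ lv G) :
    2 ≤ dg G x := by
  classical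
  have h1 := one_le_dg G hG hV x
  have h2 : dg G x ≠ 1 := fun h => hx ((mem_lv G x).mpr h)
  rw [dg_eq] at h1 h2 ⊢
  have h3 : 1 ≤ (univ.filter fun y => G.Adj x y).card := by exact_mod_cast h1
  have h4 : (univ.filter fun y => G.Adj x y).card ≠ 1 := by exact_mod_cast h2
  have h5 : 2 ≤ (univ.filter fun y => G.Adj x y).card := by omega
  exact_mod_cast h5

theorem le_mul {lam : ℝ} {psi : V → ℝ} (h : Perron G lam psi) {x y : V} (hxy : G.Adj x y) :
    psi x ≤ lam * psi y := by
  rw [← h.eig y]
  have h1 : psi x = aa G y x * psi x := by rw [aa_adj G hxy.symm, one_mul]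
  rw [h1]
  exact single_le_sum (f := fun z => aa G y z * psi z)
    (fun z _ => mul_nonneg (aa_nonneg G y z) (h.pos z).le) (mem_univ x)

theorem lam_pos {lam : ℝ} {psi : V → ℝ} (h : Perron G lam psi) {x y : V} (hxy : G.Adj x y) :
    0 < lam := by
  have h1 := le_mul G h hxy
  have h2 := h.pos x
  have h3 := h.pos y
  by_contra hcon
  rw [not_lt] at hcon
  nlinarith

theorem dg_le {lam : ℝ} {psi : V → ℝ} (h : Perron G lam psi) (x : V) : dg G x ≤ lam ^ 2 := by
  have h1 : dg G x * psi x ≤ lam ^ 2 * psi x := by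
    have e : lam ^ 2 * psi x = ∑ y, aa G x y * (lam * psi y) := by
      rw [pow_two, mul_assoc, ← h.eig x, mul_sum]
      exact sum_congr rfl fun y _ => by ring
    rw [e, dg, sum_mul]
    refine sum_le_sum fun y _ => ?_
    by_cases hxy : G.Adj x y
    · exact mul_le_mul_of_nonneg_left (le_mul G h hxy) (aa_nonneg G x y)
    · rw [aa, if_neg hxy, zero_mul, zero_mul]
  exact le_of_mul_le_mul_right h1 (h.pos x)

open Classical in
theorem zz_one {W : Type} [Fintype W] (S : SimpleGraph W) :
    ZZ S G (fun _ _ => 1) = Nat.card (S →g G) := by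
  have e : (S →g G) ≃ {f : W → V // IsHom S G f} :=
    { toFun := fun f => ⟨f, fun a b hab => f.map_rel hab⟩
      invFun := fun f => ⟨f.1, fun {a b} hab => f.2 a b hab⟩
      left_inv := fun f => rfl
      right_inv := fun f => rfl }
  rw [Nat.card_congr e, Nat.card_eq_fintype_card, Fintype.card_subtype, Finset.card_filter, ZZ,
    Nat.cast_sum]
  refine sum_congr rfl fun f _ => ?_
  split_ifs <;> simp

end BasicAux

open BasicAux

theorem thBasic : StBasic := by
  intro V _ G
  refine ⟨fun W _ S => zz_one G S, mem_lv G, fun hG hV x => one_le_dg G hG hV x,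
    fun hG hV x hx c hc => not_mem_lv G hG hV hx hc, fun hG hV x hx => two_le_dg G hG hV hx,
    fun lam psi h x => dg_le G h x, fun lam psi h ⟨x, y, hxy⟩ => lam_pos G h hxy,
    fun lam psi h _ x y hxy => le_mul G h hxy⟩

end Pool.Agent.Lib.MP_4e7250_co
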