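import Pool.Agent.Lib.MP_4e7250_co.Stmts

/-! (A6) degree sums of a tree. -/

namespace Pool.Agent.Lib.MP_4e7250_co

namespace CntX

open Finset

theorem dg_eq {V : Type} [Fintype V] (T : SimpleGraph V) [DecidableRel T.Adj] (x : V) :
    dg T x = (T.degree x : ℝ) := by
  classical
  have h : ∀ y, aa T x y = if y ∈ T.neighborFinset x then (1 : ℝ) else 0 := by
    intro y
    unfold aa
    by_cases h : T.Adj x y <;> simp [h]
  unfold dg
  rw [Finset.sum_congr rfl fun y _ => h y, Finset.sum_ite_mem, Finset.univ_inter,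
    Finset.sum_const, nsmul_eq_mul, mul_one, SimpleGraph.card_neighborFinset_eq_degree]

theorem isLeaf_iff {V : Type} [Fintype V] (T : SimpleGraph V) [DecidableRel T.Adj] (x : V) :
    IsLeaf T x ↔ T.degree x = 1 := by
  rw [← SimpleGraph.card_neighborFinset_eq_degree, Finset.card_eq_one]
  unfold IsLeaf
  constructor
  · rintro ⟨p, hp⟩
    refine ⟨p, ?_⟩
    ext u
    simp [hp u]
  · rintro ⟨p, hp⟩
    refine ⟨p, fun u => ?_⟩
    have : u ∈ T.neighborFinset x ↔ u ∈ ({p} : Finset V) := by rw [hp]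
    simpa using this

end CntX

theorem thCnt : StCnt := by
  classical
  intro V _ T hT
  have hE := hT.card_edgeFinset
  have hD := T.sum_degrees_eq_twice_card_edges
  have hD' : ∑ x, dg T x = 2 * (T.edgeFinset.card : ℝ) := by
    rw [Finset.sum_congr rfl fun x _ => CntX.dg_eq T x]
    exact_mod_cast hD
  have h1 : ∑ x, (dg T x - 2) = -2 := by
    rw [Finset.sum_sub_distrib, hD', Finset.sum_const, Finset.card_univ, nsmul_eq_mul]
    have : ((T.edgeFinset.card : ℝ)) + 1 = (Fintype.card V : ℝ) := by exact_mod_cast hE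
    linarith
  refine ⟨h1, fun hV => ?_⟩
  have hnt : Nontrivial V := Fintype.one_lt_card_iff_nontrivial.mp hV
  have hpos : ∀ x, 0 < T.degree x := fun x => hT.1.preconnected.degree_pos_of_nontrivial x
  have hnl : ∀ x ∈ (lv T)ᶜ, 0 ≤ dg T x - 2 := by
    intro x hx
    have h2 : ¬ IsLeaf T x := by
      intro h
      exact (Finset.mem_compl.mp hx) (by unfold lv; simp [h])
    rw [CntX.isLeaf_iff] at h2
    have h3 := hpos x
    have h4 : 2 ≤ T.degree x := by omega
    rw [CntX.dg_eq]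
    have : (2 : ℝ) ≤ (T.degree x : ℝ) := by exact_mod_cast h4
    linarith
  have hl : ∀ x ∈ lv T, dg T x - 2 = -1 := by
    intro x hx
    have h2 : IsLeaf T x := by
      unfold lv at hx
      simpa using hx
    rw [CntX.isLeaf_iff] at h2
    rw [CntX.dg_eq, h2]
    norm_num
  have hsplit : ∑ x ∈ lv T, (dg T x - 2) + ∑ x ∈ (lv T)ᶜ, (dg T x - 2) = -2 := by
    rw [Finset.sum_add_sum_compl, h1]
  have hL : ∑ x ∈ lv T, (dg T x - 2) = -((lv T).card : ℝ) := by
    rw [Finset.sum_congr rfl hl, Finset.sum_const, nsmul_eq_mul]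
    ring
  have hN : ∑ x ∈ (lv T)ᶜ, (dg T x - 2) = ((lv T).card : ℝ) - 2 := by
    rw [hL] at hsplit
    linarith
  have hs : 0 ≤ ((lv T).card : ℝ) - 2 := by
    rw [← hN]
    exact Finset.sum_nonneg hnl
  have hsq : ∑ x ∈ (lv T)ᶜ, (dg T x - 2) ^ 2 ≤ (((lv T).card : ℝ) - 2) ^ 2 := by
    rw [← hN]
    exact Finset.sum_sq_le_sq_sum_of_nonneg hnl
  have hL2 : ∑ x ∈ lv T, (dg T x - 2) ^ 2 = ((lv T).card : ℝ) := by
    rw [Finset.sum_congr rfl fun x hx => by rw [hl x hx], Finset.sum_const, nsmul_eq_mul]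
    ring
  rw [← Finset.sum_add_sum_compl (lv T), hL2]
  nlinarith [hsq, hs]

end Pool.Agent.Lib.MP_4e7250_co
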