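import Mathlib

/-! Definitions for the endomorphism project (MP_4e7250_co): hom(P_n, T) against hom(T, T). -/

namespace Pool.Agent.Lib.MP_4e7250_co

open Finset

open Classical in
/-- The indicator of adjacency. -/
noncomputable def aa {V : Type} (G : SimpleGraph V) (x y : V) : ℝ := if G.Adj x y then 1 else 0

/-- The degree, as a real number. -/
noncomputable def dg {V : Type} [Fintype V] (G : SimpleGraph V) (x : V) : ℝ := ∑ y, aa G x y

/-- `x` is a leaf: it has exactly one neighbour. -/
def IsLeaf {V : Type} (G : SimpleGraph V) (x : V) : Prop := ∃ p, ∀ u, G.Adj x u ↔ u = p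

open Classical in
/-- The set of leaves. -/
noncomputable def lv {V : Type} [Fintype V] (G : SimpleGraph V) : Finset V :=
  univ.filter (fun x => IsLeaf G x)

open Classical in
/-- The number of leaves adjacent to `u`. -/
noncomputable def kl {V : Type} [Fintype V] (G : SimpleGraph V) (u : V) : ℕ :=
  ((lv G).filter (fun x => G.Adj u x)).card

/-- A positive normalised eigenvector of the adjacency matrix. -/
structure Perron {V : Type} [Fintype V] (G : SimpleGraph V) (lam : ℝ) (psi : V → ℝ) : Prop where
  pos : ∀ x, 0 < psi x
  eig : ∀ x, ∑ y, aa G x y * psi y = lam * psi x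
  norm : ∑ x, psi x ^ 2 = 1

/-- The transition probabilities of the Markov chain. -/
noncomputable def PP {V : Type} (G : SimpleGraph V) (lam : ℝ) (psi : V → ℝ) (x y : V) : ℝ :=
  aa G x y * psi y / (lam * psi x)

/-- The relative entropy of a step with respect to the uniform step. -/
noncomputable def KL {V : Type} [Fintype V] (G : SimpleGraph V) (lam : ℝ) (psi : V → ℝ) (x : V) :
    ℝ :=
  ∑ y, PP G lam psi x y * Real.log (dg G x * PP G lam psi x y)

/-- The gain of a leaf. -/
noncomputable def kap {V : Type} [Fintype V] (G : SimpleGraph V) (lam : ℝ) (psi : V → ℝ) : ℝ :=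
  ∑ x, psi x ^ 2 * Real.log (dg G x) - Real.log lam

/-- The mass of the leaves. -/
noncomputable def piL {V : Type} [Fintype V] (G : SimpleGraph V) (psi : V → ℝ) : ℝ :=
  ∑ x ∈ lv G, psi x ^ 2

/-- The map `f` is a homomorphism from `S` to `G`. -/
def IsHom {W V : Type} (S : SimpleGraph W) (G : SimpleGraph V) (f : W → V) : Prop :=
  ∀ a b, S.Adj a b → G.Adj (f a) (f b)

open Classical in
/-- The weighted number of homomorphisms from `S` to `G`. -/
noncomputable def ZZ {W V : Type} [Fintype W] [Fintype V] (S : SimpleGraph W) (G : SimpleGraph V)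
    (w : W → V → ℝ) : ℝ :=
  ∑ f : W → V, if IsHom S G f then ∏ a, w a (f a) else 0

/-- Every neighbour of a leaf has a neighbour that is not a leaf (true for all trees with at least
three vertices except the stars). -/
def Up {V : Type} [Fintype V] (G : SimpleGraph V) : Prop :=
  ∀ x ∈ lv G, ∀ c, G.Adj x c → ∃ y, G.Adj c y ∧ y ∉ lv G

end Pool.Agent.Lib.MP_4e7250_co
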