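import Pool.Agent.Lib.MP_4e7250_co.Stmts

/-! Module (F): the final inequality. -/

namespace Pool.Agent.Lib.MP_4e7250_co

open Finset

namespace FinalAux

lemma sq_le_exp {a x : ℝ} (ha : 0 < a) (hx : 0 ≤ x) : x ^ 2 ≤ 2 / a ^ 2 * Real.exp (a * x) := by
  have h := Real.pow_div_factorial_le_exp (a * x) (by positivity) 2
  have e : ((Nat.factorial 2 : ℕ) : ℝ) = 2 := by norm_num [Nat.factorial]
  rw [e] at h
  have ha2 : 0 < a ^ 2 := by positivity
  calc x ^ 2 = 2 / a ^ 2 * ((a * x) ^ 2 / 2) := by field_simp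
    _ ≤ _ := by gcongr

lemma cube_le_exp {a x : ℝ} (ha : 0 < a) (hx : 0 ≤ x) : x ^ 3 ≤ 6 / a ^ 3 * Real.exp (a * x) := by
  have h := Real.pow_div_factorial_le_exp (a * x) (by positivity) 3
  have e : ((Nat.factorial 3 : ℕ) : ℝ) = 6 := by norm_num [Nat.factorial]
  rw [e] at h
  have ha2 : 0 < a ^ 3 := by positivity
  calc x ^ 3 = 6 / a ^ 3 * ((a * x) ^ 3 / 6) := by field_simp
    _ ≤ _ := by gcongr

/-- the polynomial term is absorbed -/
lemma walk_bound {lam l W : ℝ} {n : ℕ} (hlam : 21 / 5 ≤ lam ^ 2) (hlam0 : 0 < lam) (hl : 5 ≤ l)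
    (hn : 1 ≤ n) (hW : W ≤ 2 ^ (n - 1) * n + (2 * l ^ 2) / (lam - 2) ^ 2 * lam ^ (n - 1)) :
    W ≤ 1300 * l ^ 2 * lam ^ (n - 1) := by
  have h1 : 204 / 100 ≤ lam := by nlinarith
  obtain ⟨k, rfl⟩ : ∃ k, n = k + 1 := ⟨n - 1, by omega⟩
  simp only [Nat.add_sub_cancel] at hW ⊢
  have h2 : (2 : ℝ) ^ k * ((k + 1 : ℕ) : ℝ) ≤ 50 * lam ^ k := by
    have h3 : (1 : ℝ) + k * (1 / 50) ≤ (1 + 1 / 50) ^ k :=
      one_add_mul_le_pow (by norm_num) k
    have h4 : (2 : ℝ) ^ k * (1 + 1 / 50) ^ k ≤ lam ^ k := by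
      rw [← mul_pow]
      exact pow_le_pow_left₀ (by norm_num) (by linarith) k
    have h5 : (0 : ℝ) < 2 ^ k := by positivity
    push_cast
    nlinarith
  have h6 : (2 * l ^ 2) / (lam - 2) ^ 2 ≤ 1250 * l ^ 2 := by
    rw [div_le_iff₀ (by have : 0 < lam - 2 := by linarith
                        positivity)]
    have h7 : (4 / 100 : ℝ) ^ 2 ≤ (lam - 2) ^ 2 := by
      apply pow_le_pow_left₀ (by norm_num)
      linarith
    have h8 : 0 ≤ l ^ 2 := by positivity
    nlinarith
  have h9 : 0 < lam ^ k := by positivity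
  have h10 : (2 * l ^ 2) / (lam - 2) ^ 2 * lam ^ k ≤ 1250 * l ^ 2 * lam ^ k := by gcongr
  have h11 : 25 * lam ^ k ≤ l ^ 2 * lam ^ k := by
    have : 25 ≤ l ^ 2 := by nlinarith
    gcongr
  linarith

lemma case_one {c l W E L : ℝ} (hc : 0 < c) (hl : 5 ≤ l) (hL : 0 < L)
    (hW : W ≤ 1300 * l ^ 2 * L) (hE : L * Real.exp (2 * c * l) ≤ E) :
    W * Real.exp (c * √l) ≤ 2600 / c ^ 2 * E := by
  have h1 : √l ≤ l := by
    rw [Real.sqrt_le_left (by linarith)]
    nlinarith
  have h2 := sq_le_exp hc (show 0 ≤ l by linarith)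
  have hc2 : 0 < c ^ 2 := by positivity
  calc W * Real.exp (c * √l) ≤ (1300 * l ^ 2 * L) * Real.exp (c * l) := by
        have : Real.exp (c * √l) ≤ Real.exp (c * l) := Real.exp_le_exp.mpr (by gcongr)
        gcongr
    _ ≤ (1300 * (2 / c ^ 2 * Real.exp (c * l)) * L) * Real.exp (c * l) := by gcongr
    _ = 2600 / c ^ 2 * (L * (Real.exp (c * l) * Real.exp (c * l))) := by ring
    _ = 2600 / c ^ 2 * (L * Real.exp (2 * c * l)) := by
        rw [← Real.exp_add]; ring_nf
    _ ≤ _ := by gcongr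

lemma case_two {a c l W E L S : ℝ} (ha : 0 < a) (hc : c ≤ a)
    (hl : 5 ≤ l) (hL : 0 < L) (hS : 1 ≤ S)
    (hW : W ≤ 1300 * l ^ 2 * L) (hE : L * Real.exp (3 * a * l / S + 6 * a * S) ≤ S * E) :
    W * Real.exp (c * √l) ≤ 15600 / a ^ 5 * E := by
  have hS0 : 0 < S := by linarith
  obtain ⟨t, ht⟩ : ∃ t, t = l / S := ⟨_, rfl⟩
  have ht0 : 0 < t := by rw [ht]; positivity
  have hl' : l = t * S := by rw [ht]; field_simp
  have h1 : √l ≤ t + S := by
    rw [Real.sqrt_le_left (by positivity), hl']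
    nlinarith [mul_pos ht0 hS0]
  have h2 := sq_le_exp ha ht0.le
  have h3 := cube_le_exp ha hS0.le
  have e1 : 3 * a * l / S = 3 * a * t := by rw [ht]; ring
  rw [e1] at hE
  have h4 : Real.exp (c * √l) ≤ Real.exp (a * (t + S)) := by
    apply Real.exp_le_exp.mpr
    have : 0 ≤ √l := Real.sqrt_nonneg l
    nlinarith
  have h5 : Real.exp (a * t) * Real.exp (a * S) * Real.exp (a * (t + S)) ≤
      Real.exp (3 * a * t + 6 * a * S) := by
    rw [← Real.exp_add, ← Real.exp_add]
    apply Real.exp_le_exp.mpr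
    nlinarith [mul_pos ha ht0, mul_pos ha hS0]
  have h6 : S * (W * Real.exp (c * √l)) ≤ S * (15600 / a ^ 5 * E) := by
    calc S * (W * Real.exp (c * √l)) ≤ S * ((1300 * l ^ 2 * L) * Real.exp (a * (t + S))) := by
          gcongr
      _ = 1300 * L * (t ^ 2 * S ^ 3) * Real.exp (a * (t + S)) := by rw [hl']; ring
      _ ≤ 1300 * L * ((2 / a ^ 2 * Real.exp (a * t)) * (6 / a ^ 3 * Real.exp (a * S))) *
          Real.exp (a * (t + S)) := by gcongr
      _ = 15600 / a ^ 5 * (L * (Real.exp (a * t) * Real.exp (a * S) * Real.exp (a * (t + S)))) := by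
          field_simp; ring
      _ ≤ 15600 / a ^ 5 * (L * Real.exp (3 * a * t + 6 * a * S)) := by gcongr
      _ ≤ 15600 / a ^ 5 * (S * E) := by gcongr
      _ = _ := by ring
  exact le_of_mul_le_mul_left h6 hS0

end FinalAux

open FinalAux in
/-- The theorem with explicit constants. -/
theorem thFinalX (hP : StPerron) (hB : StBasic) (hLow : StLow) (hUpg : StUpg) (hStar : StStar)
    (hMass : StMass) (hHub : StHub) (hGain : StGain) (hLam : StLam) (hWalk : StWalk)
    (V : Type) [Fintype V] (T : SimpleGraph V) (hT : T.IsTree) (hl : 5 ≤ (lv T).card) :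
    (Nat.card (SimpleGraph.pathGraph (Fintype.card V) →g T) : ℝ) *
      Real.exp (1 / 2000000000 * √((lv T).card)) ≤
    (2600 / (1 / 2000000000) ^ 2 + 15600 / (1 / 1000000) ^ 5) * Nat.card (T →g T) := by
  have hconn : T.Connected := hT.connected
  obtain ⟨lam, psi, hψ⟩ := hP V T hconn
  have hcard : 5 ≤ Fintype.card V := hl.trans (card_le_univ _)
  obtain ⟨-, hleaf, hdg1, hlvn, -, hdgl, hpos, -⟩ := hB V T
  have hex : ∃ x y, T.Adj x y := by
    obtain ⟨x, hx⟩ : (lv T).Nonempty := card_pos.mp (by omega)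
    have h1 := (hleaf x).mp hx
    by_contra hcon
    push Not at hcon
    rw [dg, sum_eq_zero (fun y _ => by rw [aa, if_neg (hcon x y)])] at h1
    norm_num at h1
  have hlam0 : 0 < lam := hpos lam psi hψ hex
  have hlam2 := hLam V T lam psi hT hl hψ
  have hlam : 2 < lam := by nlinarith
  have hW := hWalk V T lam psi hT (by omega) hψ hlam (Fintype.card V - 1)
  rw [Nat.sub_add_cancel (by omega)] at hW
  have hl' : (5 : ℝ) ≤ ((lv T).card : ℝ) := by exact_mod_cast hl
  have hW2 := walk_bound hlam2 hlam0 hl' (by omega) hW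
  have hL : 0 < lam ^ (Fintype.card V - 1) := by positivity
  have hE0 : (0 : ℝ) ≤ (Nat.card (T →g T) : ℝ) := Nat.cast_nonneg _
  set l : ℝ := ((lv T).card : ℝ) with hldef
  set W : ℝ := (Nat.card (SimpleGraph.pathGraph (Fintype.card V) →g T) : ℝ) with hWdef
  set E : ℝ := (Nat.card (T →g T) : ℝ) with hEdef
  have hA : W * Real.exp (1 / 2000000000 * √l) ≤ 2600 / (1 / 2000000000) ^ 2 * E ∨
      W * Real.exp (1 / 2000000000 * √l) ≤ 15600 / (1 / 1000000) ^ 5 * E := by
    by_cases hup : Up T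
    · by_cases hk : kap T lam psi ≤ 1 / 10 ^ 9
      · right
        have h1 := hMass V T lam psi hT (by omega) hψ hlam2 hk
        obtain ⟨u, hu, hku⟩ := hHub V T lam psi hT (by omega) hψ hlam2 h1
        have hku0 : (0 : ℝ) < kl T u := lt_of_lt_of_le (by positivity) hku
        have hku1 : 0 < kl T u := by exact_mod_cast hku0
        unfold kl at hku1
        obtain ⟨x, hx⟩ := card_pos.mp hku1
        simp only [mem_filter] at hx
        obtain ⟨y, hy1, hy2⟩ := hup x hx.1 u hx.2.symm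
        have h2 := hUpg V V T T lam psi hT (by omega) hconn (by omega) hup hψ u y hy1 hu hy2
        have h3 := hGain V T lam psi hT (by omega) hup hψ
        refine case_two (S := lam ^ 2) (a := 1 / 1000000) (by norm_num) (by norm_num)
          hl' hL (by linarith) hW2 (le_trans ?_ h2)
        apply mul_le_mul_of_nonneg_left _ hL.le
        apply Real.exp_le_exp.mpr
        have hS0 : 0 < lam ^ 2 := by positivity
        have h4 : 3 * (1 / 1000000) * l / lam ^ 2 ≤ l * kap T lam psi := by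
          have h5 : 3 * (1 / 1000000) / lam ^ 2 ≤ piL T psi / (1000 * lam ^ 2) := by
            rw [div_le_div_iff₀ hS0 (by positivity)]
            nlinarith
          have h6 : 3 * (1 / 1000000) / lam ^ 2 ≤ kap T lam psi := h5.trans h3
          calc 3 * (1 / 1000000) * l / lam ^ 2 = l * (3 * (1 / 1000000) / lam ^ 2) := by ring
            _ ≤ _ := by gcongr
        have h7 : 6 * (1 / 1000000) * lam ^ 2 ≤ kl T u * piL T psi * Real.log 2 := by
          have h8 : 3 / 1000 * lam ^ 2 * (3 / 1000) ≤ kl T u * piL T psi := by gcongr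
          have h9 := Real.log_two_gt_d9
          have h10 : 0 ≤ kl T u * piL T psi := by
            have : 0 ≤ 3 / 1000 * lam ^ 2 * (3 / 1000) := by positivity
            linarith
          nlinarith
        linarith
      · left
        have h2 := hLow V V T T lam psi hT (by omega) hconn (by omega) hψ
        refine case_one (by norm_num) hl' hL hW2 (le_trans ?_ h2)
        apply mul_le_mul_of_nonneg_left _ hL.le
        apply Real.exp_le_exp.mpr
        have hk' : 1 / 10 ^ 9 ≤ kap T lam psi := (not_le.mp hk).le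
        have : l * (1 / 10 ^ 9) ≤ l * kap T lam psi := by gcongr
        linarith
    · left
      have h2 := hStar V T lam psi hT hl hup hψ
      refine case_one (by norm_num) hl' hL hW2 (le_trans ?_ h2)
      apply mul_le_mul_of_nonneg_left _ hL.le
      apply Real.exp_le_exp.mpr
      linarith
  have hC1 : 0 ≤ 2600 / (1 / 2000000000 : ℝ) ^ 2 * E := by positivity
  have hC2 : 0 ≤ 15600 / (1 / 1000000 : ℝ) ^ 5 * E := by positivity
  rw [add_mul]
  rcases hA with h | h <;> linarith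

theorem thFinal (hP : StPerron) (hB : StBasic) (hLow : StLow) (hUpg : StUpg) (hStar : StStar)
    (hMass : StMass) (hHub : StHub) (hGain : StGain) (hLam : StLam) (hWalk : StWalk) :
    StFinal :=
  ⟨1 / 2000000000, 2600 / (1 / 2000000000) ^ 2 + 15600 / (1 / 1000000) ^ 5, by norm_num,
    by norm_num, fun V _ T hT hl =>
      thFinalX hP hB hLow hUpg hStar hMass hHub hGain hLam hWalk V T hT hl⟩

end Pool.Agent.Lib.MP_4e7250_co
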