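import Pool.Agent.Lib.MP_4e7250_co.Stmts

/-! The forest inequality (C2). -/

namespace Pool.Agent.Lib.MP_4e7250_co

namespace FrX

open SimpleGraph

/-- every tree has a parent map: each edge joins a vertex and its parent -/
theorem parent {V : Type} [Fintype V] (T : SimpleGraph V) (hT : T.IsTree) :
    ∃ par : V → V, ∀ x y, T.Adj x y → y = par x ∨ x = par y := by
  classical
  obtain ⟨r⟩ := hT.connected.nonempty
  have hp : ∀ x : V, ∃ p : T.Walk x r, p.IsPath := fun x => (hT.existsUnique_path x r).exists
  choose pp hpp using hp
  refine ⟨fun x => (pp x).snd, fun x y hxy => ?_⟩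
  by_cases hy : y ∈ (pp x).support
  · left
    exact hT.isAcyclic.eq_snd_of_adj_start (hpp x) hxy hy
  · right
    have hc : (Walk.cons hxy.symm (pp x)).IsPath :=
      Walk.cons_isPath_iff _ _ |>.2 ⟨hpp x, hy⟩
    have he : pp y = Walk.cons hxy.symm (pp x) :=
      (hT.existsUnique_path y r).unique (hpp y) hc
    show x = (pp y).snd
    rw [he, Walk.snd_cons]

end FrX

open Classical in
theorem thForest : StForest := by
  intro V _ T hT m M hm hM hmM
  obtain ⟨par, hpar⟩ := FrX.parent T hT
  have h1 : ∀ x y, aa T x y * m x y ≤
      (if y = par x then M x else 0) + (if x = par y then M y else 0) := by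
    intro x y
    by_cases hxy : T.Adj x y
    · have h2 : aa T x y = 1 := by simp [aa, hxy]
      rw [h2, one_mul]
      rcases hpar x y hxy with h | h
      · rw [if_pos h]
        have h3 : (0 : ℝ) ≤ if x = par y then M y else 0 := by
          split_ifs
          · exact hM y
          · exact le_rfl
        linarith [hmM x y hxy]
      · rw [if_pos h]
        have h3 : (0 : ℝ) ≤ if y = par x then M x else 0 := by
          split_ifs
          · exact hM x
          · exact le_rfl
        have h4 := hmM y x hxy.symm
        rw [hm y x] at h4
        linarith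
    · have h2 : aa T x y = 0 := by simp [aa, hxy]
      rw [h2, zero_mul]
      have h3 : (0 : ℝ) ≤ if x = par y then M y else 0 := by
        split_ifs
        · exact hM y
        · exact le_rfl
      have h4 : (0 : ℝ) ≤ if y = par x then M x else 0 := by
        split_ifs
        · exact hM x
        · exact le_rfl
      linarith
  calc ∑ x, ∑ y, aa T x y * m x y
      ≤ ∑ x, ∑ y, ((if y = par x then M x else 0) + (if x = par y then M y else 0)) :=
        Finset.sum_le_sum fun x _ => Finset.sum_le_sum fun y _ => h1 x y
    _ = 2 * ∑ x, M x := by
        simp_rw [Finset.sum_add_distrib]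
        have e1 : ∑ x, ∑ y, (if y = par x then M x else 0) = ∑ x, M x := by
          refine Finset.sum_congr rfl fun x _ => ?_
          rw [Finset.sum_ite_eq' Finset.univ (par x) (fun _ => M x)]
          simp
        have e2 : ∑ x, ∑ y, (if x = par y then M y else 0) = ∑ y, M y := by
          rw [Finset.sum_comm]
          refine Finset.sum_congr rfl fun y _ => ?_
          rw [Finset.sum_ite_eq' Finset.univ (par y) (fun _ => M y)]
          simp
        rw [e1, e2]
        ring

end Pool.Agent.Lib.MP_4e7250_co
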