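import Pool.Agent.Lib.MP_4e7250_co.Stmts

set_option autoImplicit false

/-! (C5) lower bound for the gain. -/

namespace Pool.Agent.Lib.MP_4e7250_co

open Finset

namespace GainAux

variable {V : Type} [Fintype V] {T : SimpleGraph V} {lam : ℝ} {psi : V → ℝ}

lemma aa_nonneg (G : SimpleGraph V) (x y : V) : 0 ≤ aa G x y := by
  unfold aa; split_ifs <;> norm_num

lemma aa_adj {G : SimpleGraph V} {x y : V} (h : G.Adj x y) : aa G x y = 1 := by
  unfold aa; rw [if_pos h]

lemma aa_nadj {G : SimpleGraph V} {x y : V} (h : ¬ G.Adj x y) : aa G x y = 0 := by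
  unfold aa; rw [if_neg h]

lemma PP_nonneg (hP : Perron T lam psi) (hl : 0 < lam) (x y : V) : 0 ≤ PP T lam psi x y := by
  unfold PP
  exact div_nonneg (mul_nonneg (aa_nonneg T x y) (hP.pos y).le) (mul_pos hl (hP.pos x)).le

lemma exists_adj {x : V} (h : 1 ≤ dg T x) : ∃ y, T.Adj x y := by
  by_contra hne
  push Not at hne
  have : dg T x = 0 := by
    unfold dg
    exact Finset.sum_eq_zero (fun y _ => aa_nadj (hne y))
  linarith

/-- two terms of a sum of nonnegative numbers -/
lemma two_terms {f : V → ℝ} (hf : ∀ x, 0 ≤ f x) {a b : V} (hab : a ≠ b) :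
    f a + f b ≤ ∑ x, f x := by
  classical
  have h1 : ∑ x ∈ ({a, b} : Finset V), f x ≤ ∑ x, f x :=
    Finset.sum_le_sum_of_subset_of_nonneg (Finset.subset_univ _) (fun x _ _ => hf x)
  rwa [Finset.sum_pair hab] at h1

lemma one_term {f : V → ℝ} (hf : ∀ x, 0 ≤ f x) (a : V) : f a ≤ ∑ x, f x :=
  Finset.single_le_sum (fun x _ => hf x) (Finset.mem_univ a)

end GainAux

open GainAux in
/-- (C5) lower bound for the gain -/
theorem thGain (hB : StBasic) (hH : StHel) : StGain := by
  classical
  intro V _ T lam psi hT h3 hUp hP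
  obtain ⟨_, b2, b3, b4, b5, _, b7, _⟩ := hB V T
  have hconn : T.Connected := hT.1
  have h2 : 2 ≤ Fintype.card V := by omega
  have hlam : 0 < lam := by
    have hne : Nonempty V := hconn.nonempty
    obtain ⟨x⟩ := hne
    obtain ⟨y, hy⟩ := exists_adj (b3 hconn h2 x)
    exact b7 lam psi hP ⟨x, y, hy⟩
  obtain ⟨hkap, hsum, hrev, hprod, hhel⟩ := hH V T lam psi hconn h2 hP
  have hKL0 : ∀ x, 0 ≤ KL T lam psi x := fun x =>
    le_trans (Finset.sum_nonneg (fun y _ => mul_nonneg (aa_nonneg T x y) (sq_nonneg _))) (hhel x)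
  have hterm0 : ∀ x y, 0 ≤ aa T x y * (√(PP T lam psi x y) - √(1 / dg T x)) ^ 2 := fun x y =>
    mul_nonneg (aa_nonneg T x y) (sq_nonneg _)
  have hPle1 : ∀ x y, PP T lam psi x y ≤ 1 := fun x y => by
    rw [← hsum x]; exact one_term (fun y => PP_nonneg hP hlam x y) y
  -- the key inequality
  have key : ∀ y, (∃ x ∈ lv T, T.Adj y x) →
      psi y ^ 2 * (1 / lam ^ 2) ≤ 18 * (psi y ^ 2 * KL T lam psi y) +
        600 * ∑ z, psi y ^ 2 * PP T lam psi y z * KL T lam psi z := by
    rintro y ⟨x, hx, hyx⟩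
    obtain ⟨z, hyz, hz⟩ := hUp x hx y hyx.symm
    have hxz : x ≠ z := by rintro rfl; exact hz hx
    have hpy : 0 < psi y := hP.pos y
    -- P_yx = 1 / lam ^ 2
    have hPyx : PP T lam psi y x = 1 / lam ^ 2 := by
      have h1 := hprod y x hyx
      have h2' : PP T lam psi x y = 1 := by
        have h3' := hsum x
        have hx' := hx
        unfold lv at hx'
        rw [Finset.mem_filter] at hx'
        obtain ⟨p, hp⟩ := hx'.2
        have hyp : y = p := (hp y).1 hyx.symm
        rw [Finset.sum_eq_single y] at h3'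
        · exact h3'
        · intro w _ hw
          have : ¬ T.Adj x w := fun h => hw (by rw [(hp w).1 h, hyp])
          unfold PP; rw [aa_nadj this]; simp
        · intro h; exact absurd (Finset.mem_univ y) h
      rw [h2', mul_one] at h1
      exact h1
    have hzy : PP T lam psi y z * PP T lam psi z y = 1 / lam ^ 2 := hprod y z hyz
    have hyz0 := PP_nonneg hP hlam y z
    have hzy0 := PP_nonneg hP hlam z y
    have hsnn : 0 ≤ ∑ z, psi y ^ 2 * PP T lam psi y z * KL T lam psi z :=
      Finset.sum_nonneg (fun w _ => mul_nonneg (mul_nonneg (sq_nonneg _)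
        (PP_nonneg hP hlam y w)) (hKL0 w))
    have hinv : 0 < 1 / lam := by positivity
    by_cases hcase : PP T lam psi z y ≤ 9 / 16
    · -- first case
      have hsq : √(PP T lam psi y x) = 1 / lam := by
        rw [hPyx, show (1 : ℝ) / lam ^ 2 = (1 / lam) ^ 2 by ring, Real.sqrt_sq hinv.le]
      have hge : 16 / 9 * (1 / lam) ^ 2 ≤ PP T lam psi y z := by
        have h5 : (1 / lam) ^ 2 = PP T lam psi y z * PP T lam psi z y := by
          rw [hzy]; ring
        nlinarith
      have hsqz : 4 / 3 * (1 / lam) ≤ √(PP T lam psi y z) := by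
        apply Real.le_sqrt_of_sq_le
        calc (4 / 3 * (1 / lam)) ^ 2 = 16 / 9 * (1 / lam) ^ 2 := by ring
          _ ≤ _ := hge
      have h6 := two_terms (fun w => hterm0 y w) hxz
      have h7 := hhel y
      simp only [aa_adj hyx, aa_adj hyz, one_mul] at h6
      rw [hsq] at h6
      set r := √(1 / dg T y)
      set s := √(PP T lam psi y z)
      have h8 : 1 / 18 * (1 / lam) ^ 2 ≤ (1 / lam - r) ^ 2 + (s - r) ^ 2 := by
        nlinarith [sq_nonneg ((1 / lam - r) + (s - r)), sq_nonneg (s - 4 / 3 * (1 / lam)),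
          mul_nonneg (sub_nonneg.2 hsqz) hinv.le]
      have h9 : (1 / lam) ^ 2 ≤ 18 * KL T lam psi y := by linarith
      have h10 : psi y ^ 2 * (1 / lam) ^ 2 ≤ psi y ^ 2 * (18 * KL T lam psi y) :=
        mul_le_mul_of_nonneg_left h9 (sq_nonneg _)
      have h11 : (1 : ℝ) / lam ^ 2 = (1 / lam) ^ 2 := by ring
      rw [h11]
      linarith
    · -- second case
      push Not at hcase
      have hdz : 2 ≤ dg T z := b5 hconn h2 z hz
      have hsz : 3 / 4 ≤ √(PP T lam psi z y) := by
        apply Real.le_sqrt_of_sq_le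
        norm_num
        linarith
      have hrz : √(1 / dg T z) ≤ 7072 / 10000 := by
        rw [Real.sqrt_le_left (by norm_num)]
        calc 1 / dg T z ≤ 1 / 2 := one_div_le_one_div_of_le (by norm_num) hdz
          _ ≤ _ := by norm_num
      have h6 := one_term (fun w => hterm0 z w) y
      have h7 := hhel z
      simp only [aa_adj hyz.symm, one_mul] at h6
      have h8 : 1 / 600 ≤ (√(PP T lam psi z y) - √(1 / dg T z)) ^ 2 := by
        have h9 : 428 / 10000 ≤ √(PP T lam psi z y) - √(1 / dg T z) := by linarith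
        nlinarith
      have hKz : 1 ≤ 600 * KL T lam psi z := by linarith
      have hyzge : 1 / lam ^ 2 ≤ PP T lam psi y z := by
        rw [← hzy]
        exact mul_le_of_le_one_right hyz0 (hPle1 z y)
      have hone : psi y ^ 2 * PP T lam psi y z * KL T lam psi z ≤
          ∑ z, psi y ^ 2 * PP T lam psi y z * KL T lam psi z :=
        one_term (f := fun z => psi y ^ 2 * PP T lam psi y z * KL T lam psi z)
          (fun w => mul_nonneg (mul_nonneg (sq_nonneg _) (PP_nonneg hP hlam y w)) (hKL0 w)) z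
      have h10 : psi y ^ 2 * (1 / lam ^ 2) ≤ psi y ^ 2 * PP T lam psi y z :=
        mul_le_mul_of_nonneg_left hyzge (sq_nonneg _)
      have h11 : psi y ^ 2 * PP T lam psi y z * 1 ≤
          psi y ^ 2 * PP T lam psi y z * (600 * KL T lam psi z) :=
        mul_le_mul_of_nonneg_left hKz (mul_nonneg (sq_nonneg _) hyz0)
      have h12 : 0 ≤ psi y ^ 2 * KL T lam psi y := mul_nonneg (sq_nonneg _) (hKL0 y)
      linarith
  -- sum over the vertices with a leaf neighbour
  set Y : Finset V := univ.filter (fun y => ∃ x ∈ lv T, T.Adj y x) with hY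
  have hkap0 : 0 ≤ kap T lam psi := by
    rw [hkap]; exact Finset.sum_nonneg (fun x _ => mul_nonneg (sq_nonneg _) (hKL0 x))
  have hsumY : (∑ y ∈ Y, psi y ^ 2) * (1 / lam ^ 2) ≤ 618 * kap T lam psi := by
    calc (∑ y ∈ Y, psi y ^ 2) * (1 / lam ^ 2) = ∑ y ∈ Y, psi y ^ 2 * (1 / lam ^ 2) :=
          Finset.sum_mul _ _ _
      _ ≤ ∑ y ∈ Y, (18 * (psi y ^ 2 * KL T lam psi y) +
          600 * ∑ z, psi y ^ 2 * PP T lam psi y z * KL T lam psi z) :=
          Finset.sum_le_sum (fun y hy => key y (Finset.mem_filter.1 hy).2)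
      _ ≤ ∑ y, (18 * (psi y ^ 2 * KL T lam psi y) +
          600 * ∑ z, psi y ^ 2 * PP T lam psi y z * KL T lam psi z) := by
          apply Finset.sum_le_sum_of_subset_of_nonneg (Finset.subset_univ _)
          intro y _ _
          have h1 : 0 ≤ psi y ^ 2 * KL T lam psi y := mul_nonneg (sq_nonneg _) (hKL0 y)
          have h2' : 0 ≤ ∑ z, psi y ^ 2 * PP T lam psi y z * KL T lam psi z :=
            Finset.sum_nonneg (fun w _ => mul_nonneg (mul_nonneg (sq_nonneg _)
              (PP_nonneg hP hlam y w)) (hKL0 w))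
          linarith
      _ = 18 * kap T lam psi +
          600 * ∑ y, ∑ z, psi y ^ 2 * PP T lam psi y z * KL T lam psi z := by
          rw [Finset.sum_add_distrib, ← Finset.mul_sum, ← Finset.mul_sum, ← hkap]
      _ = 18 * kap T lam psi + 600 * kap T lam psi := by
          congr 2
          rw [Finset.sum_comm, hkap]
          refine Finset.sum_congr rfl (fun z _ => ?_)
          calc ∑ y, psi y ^ 2 * PP T lam psi y z * KL T lam psi z
              = ∑ y, psi z ^ 2 * KL T lam psi z * PP T lam psi z y :=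
                Finset.sum_congr rfl (fun y _ => by rw [hrev y z]; ring)
            _ = psi z ^ 2 * KL T lam psi z := by rw [← Finset.mul_sum, hsum z, mul_one]
      _ = 618 * kap T lam psi := by ring
  have hpiL : piL T psi ≤ ∑ y ∈ Y, psi y ^ 2 := by
    calc piL T psi = ∑ x ∈ lv T, ∑ y, psi x ^ 2 * PP T lam psi x y := by
          unfold piL
          refine Finset.sum_congr rfl (fun x _ => ?_)
          rw [← Finset.mul_sum, hsum x, mul_one]
      _ = ∑ x ∈ lv T, ∑ y, psi y ^ 2 * PP T lam psi y x :=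
          Finset.sum_congr rfl (fun x _ => Finset.sum_congr rfl (fun y _ => hrev x y))
      _ = ∑ y, ∑ x ∈ lv T, psi y ^ 2 * PP T lam psi y x := Finset.sum_comm
      _ = ∑ y ∈ Y, ∑ x ∈ lv T, psi y ^ 2 * PP T lam psi y x := by
          symm
          apply Finset.sum_subset (Finset.subset_univ _)
          intro y _ hy
          refine Finset.sum_eq_zero (fun x hx => ?_)
          have hn : ¬ T.Adj y x := fun h => hy (Finset.mem_filter.2 ⟨Finset.mem_univ _, x, hx, h⟩)
          unfold PP; rw [aa_nadj hn]; simp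
      _ ≤ ∑ y ∈ Y, psi y ^ 2 := by
          refine Finset.sum_le_sum (fun y _ => ?_)
          rw [← Finset.mul_sum]
          have h1 : ∑ x ∈ lv T, PP T lam psi y x ≤ 1 := by
            rw [← hsum y]
            exact Finset.sum_le_sum_of_subset_of_nonneg (Finset.subset_univ _)
              (fun w _ _ => PP_nonneg hP hlam y w)
          exact mul_le_of_le_one_right (sq_nonneg _) h1
  have hl2 : 0 < lam ^ 2 := by positivity
  have hfin : piL T psi * (1 / lam ^ 2) ≤ 618 * kap T lam psi :=
    le_trans (mul_le_mul_of_nonneg_right hpiL (by positivity)) hsumY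
  have : piL T psi / (1000 * lam ^ 2) = (piL T psi * (1 / lam ^ 2)) / 1000 := by
    field_simp
  rw [this]
  linarith

end Pool.Agent.Lib.MP_4e7250_co
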