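import Pool.Agent.Lib.MP_4e7250_co.Stmts

/-! Module C1 of the endomorphism project: relative entropy against Hellinger distance. -/

namespace Pool.Agent.Lib.MP_4e7250_co

open Finset

namespace HelAux

lemma aa_symm {V : Type} (G : SimpleGraph V) (x y : V) : aa G x y = aa G y x := by
  unfold aa
  by_cases h : G.Adj x y
  · rw [if_pos h, if_pos h.symm]
  · rw [if_neg h, if_neg (fun h' => h h'.symm)]

/-- The scalar inequality. -/
lemma scal (p d : ℝ) (hp : 0 < p) (hd : 0 < d) :
    (√p - √(1 / d)) ^ 2 + (p - 1 / d) ≤ p * Real.log (d * p) := by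
  have hs : 0 < √p := Real.sqrt_pos.2 hp
  have hd' : 0 < 1 / d := by positivity
  have ht : 0 < √(1 / d) := Real.sqrt_pos.2 hd'
  have hs2 : √p ^ 2 = p := Real.sq_sqrt hp.le
  have ht2 : √(1 / d) ^ 2 = 1 / d := Real.sq_sqrt hd'.le
  have hlog : Real.log (√(1 / d) / √p) ≤ √(1 / d) / √p - 1 :=
    Real.log_le_sub_one_of_pos (by positivity)
  have hE : Real.log (d * p) = -(2 * Real.log (√(1 / d) / √p)) := by
    rw [Real.log_div ht.ne' hs.ne', Real.log_sqrt hd'.le, Real.log_sqrt hp.le,
      Real.log_mul hd.ne' hp.ne', one_div, Real.log_inv]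
    ring
  have h3 : p * (√(1 / d) / √p) = √p * √(1 / d) := by
    have : p = √p * √p := (Real.mul_self_sqrt hp.le).symm
    field_simp
    rw [hs2]
  rw [hE]
  have h4 : p * Real.log (√(1 / d) / √p) ≤ √p * √(1 / d) - p := by
    have := mul_le_mul_of_nonneg_left hlog hp.le
    rw [mul_sub, h3, mul_one] at this
    exact this
  nlinarith [h4, hs2, ht2]

end HelAux

/-- (C1) relative entropy and Hellinger distance -/
theorem thHel (hB : StBasic) : StHel := by
  intro V _ G lam psi hconn hcard hP
  obtain ⟨-, -, hdg, -, -, -, hlampos, -⟩ := hB V G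
  have hdg1 := hdg hconn hcard
  have hex : ∃ x y, G.Adj x y := by
    have hnt : Nontrivial V := Fintype.one_lt_card_iff_nontrivial.1 (by omega)
    obtain ⟨x⟩ := hconn.nonempty
    obtain ⟨y, hy⟩ := hconn.preconnected.exists_adj_of_nontrivial x
    exact ⟨x, y, hy⟩
  have hlam : 0 < lam := hlampos lam psi hP hex
  have hpsi := hP.pos
  have hPPsum : ∀ x, ∑ y, PP G lam psi x y = 1 := by
    intro x
    unfold PP
    rw [← Finset.sum_div, hP.eig x]
    exact div_self (mul_pos hlam (hpsi x)).ne'
  have hrev : ∀ x y, psi x ^ 2 * PP G lam psi x y = psi y ^ 2 * PP G lam psi y x := by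
    intro x y
    unfold PP
    rw [HelAux.aa_symm G y x]
    have h1 := (hpsi x).ne'
    have h2 := (hpsi y).ne'
    have h3 := hlam.ne'
    field_simp
  have hadj1 : ∀ x y, G.Adj x y → PP G lam psi x y = psi y / (lam * psi x) := by
    intro x y hxy
    unfold PP aa
    rw [if_pos hxy, one_mul]
  have hadj0 : ∀ x y, ¬ G.Adj x y → PP G lam psi x y = 0 := by
    intro x y hxy
    unfold PP aa
    rw [if_neg hxy, zero_mul, zero_div]
  have hprod : ∀ x y, G.Adj x y → PP G lam psi x y * PP G lam psi y x = 1 / lam ^ 2 := by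
    intro x y hxy
    rw [hadj1 x y hxy, hadj1 y x hxy.symm]
    have h1 := (hpsi x).ne'
    have h2 := (hpsi y).ne'
    have h3 := hlam.ne'
    field_simp
  have hterm : ∀ x y, PP G lam psi x y * Real.log (dg G x * PP G lam psi x y) =
      PP G lam psi x y * (Real.log (dg G x) - Real.log lam) +
        PP G lam psi x y * (Real.log (psi y) - Real.log (psi x)) := by
    intro x y
    by_cases hxy : G.Adj x y
    · have hd0 : dg G x ≠ 0 := (lt_of_lt_of_le one_pos (hdg1 x)).ne'
      rw [hadj1 x y hxy, Real.log_mul hd0 (div_pos (hpsi y) (mul_pos hlam (hpsi x))).ne',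
        Real.log_div (hpsi y).ne' (mul_pos hlam (hpsi x)).ne',
        Real.log_mul hlam.ne' (hpsi x).ne']
      ring
    · rw [hadj0 x y hxy]
      ring
  have hKL : ∀ x, KL G lam psi x = (Real.log (dg G x) - Real.log lam) +
      ∑ y, PP G lam psi x y * (Real.log (psi y) - Real.log (psi x)) := by
    intro x
    unfold KL
    rw [Finset.sum_congr rfl (fun y _ => hterm x y), Finset.sum_add_distrib, ← Finset.sum_mul,
      hPPsum x, one_mul]
  refine ⟨?_, hPPsum, hrev, hprod, ?_⟩
  · have hanti : ∑ x, psi x ^ 2 * ∑ y, PP G lam psi x y *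
        (Real.log (psi y) - Real.log (psi x)) = 0 := by
      have h1 : ∑ x, psi x ^ 2 * ∑ y, PP G lam psi x y *
          (Real.log (psi y) - Real.log (psi x)) =
          ∑ x, ∑ y, psi x ^ 2 * PP G lam psi x y * (Real.log (psi y) - Real.log (psi x)) := by
        refine Finset.sum_congr rfl fun x _ => ?_
        rw [Finset.mul_sum]
        refine Finset.sum_congr rfl fun y _ => ?_
        ring
      have h2 : ∑ x, ∑ y, psi x ^ 2 * PP G lam psi x y *
          (Real.log (psi y) - Real.log (psi x)) =
          -∑ x, ∑ y, psi x ^ 2 * PP G lam psi x y *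
            (Real.log (psi y) - Real.log (psi x)) := by
        conv_lhs => rw [Finset.sum_comm]
        rw [← Finset.sum_neg_distrib]
        refine Finset.sum_congr rfl fun x _ => ?_
        rw [← Finset.sum_neg_distrib]
        refine Finset.sum_congr rfl fun y _ => ?_
        rw [hrev y x]
        ring
      rw [h1]
      linarith
    have hsum : ∑ x, psi x ^ 2 * KL G lam psi x =
        ∑ x, (psi x ^ 2 * Real.log (dg G x) - psi x ^ 2 * Real.log lam +
          psi x ^ 2 * ∑ y, PP G lam psi x y * (Real.log (psi y) - Real.log (psi x))) := by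
      refine Finset.sum_congr rfl fun x _ => ?_
      rw [hKL x]
      ring
    rw [hsum, Finset.sum_add_distrib, hanti, add_zero, Finset.sum_sub_distrib, ← Finset.sum_mul,
      hP.norm, one_mul]
    rfl
  · intro x
    have hd : 0 < dg G x := lt_of_lt_of_le one_pos (hdg1 x)
    have hper : ∀ y, aa G x y * (√(PP G lam psi x y) - √(1 / dg G x)) ^ 2 +
        (PP G lam psi x y - aa G x y * (1 / dg G x)) ≤
        PP G lam psi x y * Real.log (dg G x * PP G lam psi x y) := by
      intro y
      by_cases hxy : G.Adj x y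
      · have ha : aa G x y = 1 := by unfold aa; rw [if_pos hxy]
        have hp : 0 < PP G lam psi x y := by
          rw [hadj1 x y hxy]
          exact div_pos (hpsi y) (mul_pos hlam (hpsi x))
        rw [ha, one_mul, one_mul]
        exact HelAux.scal _ _ hp hd
      · have ha : aa G x y = 0 := by unfold aa; rw [if_neg hxy]
        rw [hadj0 x y hxy, ha]
        simp
    have hs : ∑ y, (aa G x y * (√(PP G lam psi x y) - √(1 / dg G x)) ^ 2 +
        (PP G lam psi x y - aa G x y * (1 / dg G x))) ≤ KL G lam psi x :=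
      Finset.sum_le_sum fun y _ => hper y
    rw [Finset.sum_add_distrib, Finset.sum_sub_distrib, hPPsum x, ← Finset.sum_mul] at hs
    have h1 : (∑ y, aa G x y) * (1 / dg G x) = 1 := by
      change dg G x * (1 / dg G x) = 1
      exact mul_one_div_cancel hd.ne'
    rw [h1] at hs
    linarith

end Pool.Agent.Lib.MP_4e7250_co
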