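import Pool.Agent.Lib.MP_4e7250_co.Stmts

/-! Module C4: leaves of large mass force a vertex with many leaves. -/

namespace Pool.Agent.Lib.MP_4e7250_co

open Finset

namespace HubAux

/-- The mass of the leaves, counted at their neighbours. -/
lemma mass {V : Type} [Fintype V] (G : SimpleGraph V) (lam : ℝ) (psi : V → ℝ)
    (h : Perron G lam psi) : lam ^ 2 * piL G psi = ∑ u, (kl G u : ℝ) * psi u ^ 2 := by
  classical
  have h1 : ∀ x ∈ lv G, lam ^ 2 * psi x ^ 2 = ∑ u, if G.Adj u x then psi u ^ 2 else 0 := by
    intro x hx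
    have hx' : IsLeaf G x := by
      simpa [lv] using hx
    obtain ⟨p, hp⟩ := hx'
    have he := h.eig x
    have h2 : ∑ y, aa G x y * psi y = psi p := by
      rw [Finset.sum_eq_single p]
      · simp [aa, (hp p).2 rfl]
      · intro b _ hb
        have : ¬ G.Adj x b := fun hc => hb ((hp b).1 hc)
        simp [aa, this]
      · intro hc
        exact absurd (Finset.mem_univ p) hc
    have h3 : (∑ u, if G.Adj u x then psi u ^ 2 else 0) = psi p ^ 2 := by
      rw [Finset.sum_eq_single p]
      · simp [((hp p).2 rfl).symm]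
      · intro b _ hb
        have : ¬ G.Adj b x := fun hc => hb ((hp b).1 hc.symm)
        simp [this]
      · intro hc
        exact absurd (Finset.mem_univ p) hc
    rw [h3, ← h2, he]
    ring
  rw [piL, Finset.mul_sum, Finset.sum_congr rfl h1, Finset.sum_comm]
  refine Finset.sum_congr rfl fun u _ => ?_
  rw [← Finset.sum_filter, Finset.sum_const, nsmul_eq_mul, kl]

end HubAux

theorem thHub (hB : StBasic) : StHub := by
  classical
  intro V _ T lam psi hT hV hP hlam hpi
  obtain ⟨-, -, -, hleaf, -⟩ := hB V T
  by_contra hne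
  push Not at hne
  have hlt : ∀ u, (kl T u : ℝ) < 3 / 1000 * lam ^ 2 := by
    intro u
    by_cases hu : u ∈ lv T
    · have h0 : kl T u = 0 := by
        unfold kl
        rw [Finset.card_eq_zero, Finset.filter_eq_empty_iff]
        intro x hx hux
        exact hleaf hT.1 hV u hu x hux hx
      rw [h0]
      push_cast
      nlinarith
    · exact hne u hu
  have hcard : 0 < Fintype.card V := by omega
  have hnon : Nonempty V := Fintype.card_pos_iff.1 hcard
  have h1 : ∑ u, (kl T u : ℝ) * psi u ^ 2 < ∑ u, (3 / 1000 * lam ^ 2) * psi u ^ 2 := by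
    refine Finset.sum_lt_sum_of_nonempty Finset.univ_nonempty fun u _ => ?_
    exact mul_lt_mul_of_pos_right (hlt u) (pow_pos (hP.pos u) 2)
  rw [← Finset.mul_sum, hP.norm, mul_one, ← HubAux.mass T lam psi hP] at h1
  nlinarith

end Pool.Agent.Lib.MP_4e7250_co
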