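import Pool.Agent.Lib.MP_4e7250_co.Stmts

/-! (A5) the lower bound of Csikvari and Lin with vertex weights. -/

namespace Pool.Agent.Lib.MP_4e7250_co

namespace JenX

open Finset

section

variable {V : Type} [Fintype V] {G : SimpleGraph V} {lam : ℝ} {psi : V → ℝ}

omit [Fintype V] in
theorem aa_nonneg (G : SimpleGraph V) (x y : V) : 0 ≤ aa G x y := by
  unfold aa
  split_ifs
  · exact zero_le_one
  · exact le_refl 0

omit [Fintype V] in
theorem aa_comm (G : SimpleGraph V) (x y : V) : aa G x y = aa G y x := by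
  unfold aa
  by_cases h : G.Adj x y
  · rw [if_pos h, if_pos h.symm]
  · rw [if_neg h, if_neg fun h1 => h h1.symm]

theorem psi_sq_le (h : Perron G lam psi) (x : V) : psi x ^ 2 ≤ 1 := by
  rw [← h.norm]
  exact Finset.single_le_sum (f := fun x => psi x ^ 2) (fun y _ => sq_nonneg _)
    (Finset.mem_univ x)

theorem sum_pos_of_pos (h : Perron G lam psi) (hl : 0 < lam) {g : V → ℝ} (hg : ∀ y, 0 < g y)
    (x : V) : 0 < ∑ y, aa G x y * g y := by
  have h1 : 0 < ∑ y, aa G x y * psi y := by
    rw [h.eig x]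
    exact mul_pos hl (h.pos x)
  obtain ⟨y, hy, hne⟩ := Finset.exists_ne_zero_of_sum_ne_zero h1.ne'
  have h2 : aa G x y ≠ 0 := fun h3 => hne (by rw [h3, zero_mul])
  have h3 : 0 < aa G x y := lt_of_le_of_ne (aa_nonneg G x y) (Ne.symm h2)
  refine Finset.sum_pos' (fun z _ => mul_nonneg (aa_nonneg G x z) (hg z).le) ⟨y, hy, ?_⟩
  exact mul_pos h3 (hg y)

/-- weighted inequality between the means, exponential form -/
theorem exp_sum_le {W : Type} [Fintype W] (p t : W → ℝ) (hp : ∀ y, 0 ≤ p y)
    (h1 : ∑ y, p y = 1) : Real.exp (∑ y, p y * t y) ≤ ∑ y, p y * Real.exp (t y) := by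
  have h := convexOn_exp.map_sum_le (t := Finset.univ) (w := p) (p := t) (fun y _ => hp y) h1
    (fun y _ => Set.mem_univ _)
  simpa only [smul_eq_mul] using h

/-- one step of the chain -/
theorem step_le (h : Perron G lam psi) (hl : 0 < lam) {g : V → ℝ} (hg : ∀ y, 0 < g y) (x : V) :
    ∑ y, aa G x y * psi y / (lam * psi x) *
      (Real.log (g y) - Real.log (psi y) + Real.log lam + Real.log (psi x)) ≤
      Real.log (∑ y, aa G x y * g y) := by
  have hx := h.pos x
  have hlx : 0 < lam * psi x := mul_pos hl hx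
  rw [Real.le_log_iff_exp_le (sum_pos_of_pos h hl hg x)]
  have h1 : ∑ y, aa G x y * psi y / (lam * psi x) = 1 := by
    rw [← Finset.sum_div, h.eig x, div_self hlx.ne']
  refine (exp_sum_le (fun y => aa G x y * psi y / (lam * psi x))
    (fun y => Real.log (g y) - Real.log (psi y) + Real.log lam + Real.log (psi x))
    (fun y => div_nonneg (mul_nonneg (aa_nonneg G x y) (h.pos y).le) hlx.le) h1).trans ?_
  refine le_of_eq (Finset.sum_congr rfl fun y _ => ?_)
  have hy := h.pos y
  rw [Real.exp_add, Real.exp_add, Real.exp_sub, Real.exp_log (hg y), Real.exp_log hy,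
    Real.exp_log hl, Real.exp_log hx]
  field_simp

/-- the gain of a leaf -/
theorem key (h : Perron G lam psi) (hl : 0 < lam) {g : V → ℝ} (hg : ∀ y, 0 < g y) :
    Real.log lam + ∑ x, psi x ^ 2 * Real.log (g x) ≤
      ∑ x, psi x ^ 2 * Real.log (∑ y, aa G x y * g y) := by
  have hc : ∀ x y, psi x ^ 2 * (aa G x y * psi y / (lam * psi x)) =
      aa G x y * psi x * psi y / lam := by
    intro x y
    have hx := (h.pos x).ne'
    have hl' := hl.ne'
    field_simp
  have hrow : ∀ x, ∑ y, aa G x y * psi x * psi y / lam = psi x ^ 2 := by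
    intro x
    rw [← Finset.sum_div]
    have h1 : ∑ y, aa G x y * psi x * psi y = psi x * ∑ y, aa G x y * psi y := by
      rw [Finset.mul_sum]
      exact Finset.sum_congr rfl fun y _ => by ring
    rw [h1, h.eig x]
    have hl' := hl.ne'
    field_simp
  have hcol : ∀ y, ∑ x, aa G x y * psi x * psi y / lam = psi y ^ 2 := by
    intro y
    rw [← hrow y]
    refine Finset.sum_congr rfl fun x _ => ?_
    rw [aa_comm G x y]
    ring
  have h2 : ∑ x, psi x ^ 2 * (∑ y, aa G x y * psi y / (lam * psi x) *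
      (Real.log (g y) - Real.log (psi y) + Real.log lam + Real.log (psi x))) ≤
      ∑ x, psi x ^ 2 * Real.log (∑ y, aa G x y * g y) :=
    Finset.sum_le_sum fun x _ => mul_le_mul_of_nonneg_left (step_le h hl hg x) (sq_nonneg _)
  refine le_trans (le_of_eq ?_) h2
  have h3 : ∑ x, psi x ^ 2 * (∑ y, aa G x y * psi y / (lam * psi x) *
      (Real.log (g y) - Real.log (psi y) + Real.log lam + Real.log (psi x))) =
      ∑ x, ∑ y, (aa G x y * psi x * psi y / lam * (Real.log (g y) - Real.log (psi y)) +
        aa G x y * psi x * psi y / lam * (Real.log lam + Real.log (psi x))) := by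
    refine Finset.sum_congr rfl fun x _ => ?_
    rw [Finset.mul_sum]
    refine Finset.sum_congr rfl fun y _ => ?_
    rw [← hc x y]
    ring
  rw [h3]
  have h4 : ∑ x, ∑ y, aa G x y * psi x * psi y / lam * (Real.log (g y) - Real.log (psi y)) =
      ∑ y, psi y ^ 2 * (Real.log (g y) - Real.log (psi y)) := by
    rw [Finset.sum_comm]
    refine Finset.sum_congr rfl fun y _ => ?_
    rw [← Finset.sum_mul, hcol y]
  have h5 : ∑ x, ∑ y, aa G x y * psi x * psi y / lam * (Real.log lam + Real.log (psi x)) =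
      ∑ x, psi x ^ 2 * (Real.log lam + Real.log (psi x)) := by
    refine Finset.sum_congr rfl fun x _ => ?_
    rw [← Finset.sum_mul, hrow x]
  have h6 : ∑ x, ∑ y, (aa G x y * psi x * psi y / lam * (Real.log (g y) - Real.log (psi y)) +
      aa G x y * psi x * psi y / lam * (Real.log lam + Real.log (psi x))) =
      ∑ y, psi y ^ 2 * (Real.log (g y) - Real.log (psi y)) +
      ∑ x, psi x ^ 2 * (Real.log lam + Real.log (psi x)) := by
    rw [← h4, ← h5, ← Finset.sum_add_distrib]
    exact Finset.sum_congr rfl fun x _ => Finset.sum_add_distrib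
  rw [h6, ← Finset.sum_add_distrib]
  have h7 : ∀ x, psi x ^ 2 * (Real.log (g x) - Real.log (psi x)) +
      psi x ^ 2 * (Real.log lam + Real.log (psi x)) =
      psi x ^ 2 * Real.log lam + psi x ^ 2 * Real.log (g x) := fun x => by ring
  rw [Finset.sum_congr rfl fun x _ => h7 x, Finset.sum_add_distrib, ← Finset.sum_mul, h.norm,
    one_mul]

/-- the case of one vertex -/
theorem base (h : Perron G lam psi) {g : V → ℝ} (hg : ∀ y, 0 < g y) :
    Real.exp (∑ x, psi x ^ 2 * Real.log (g x)) ≤ ∑ x, g x := by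
  refine (exp_sum_le (fun x => psi x ^ 2) (fun x => Real.log (g x)) (fun y => sq_nonneg _)
    h.norm).trans (Finset.sum_le_sum fun x _ => ?_)
  rw [Real.exp_log (hg x)]
  exact mul_le_of_le_one_left (hg x).le (psi_sq_le h x)

theorem ZZ_unique {W : Type} [Fintype W] (S : SimpleGraph W) (a : W) (ha : ∀ b, b = a)
    (w : W → V → ℝ) : ZZ S G w = ∑ x, w a x := by
  classical
  unfold ZZ
  have h1 : ∀ f : W → V, IsHom S G f := by
    intro f b c hbc
    rw [ha b, ha c] at hbc
    exact absurd hbc (S.irrefl)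
  refine Finset.sum_nbij' (fun f => f a) (fun x _ => x) (fun f _ => Finset.mem_univ _)
    (fun x _ => Finset.mem_univ _) (fun f _ => ?_) (fun x _ => rfl) (fun f _ => ?_)
  · funext b
    rw [ha b]
  · rw [if_pos (h1 f)]
    exact Fintype.prod_eq_single a fun b hb => absurd (ha b) hb

end

open Classical in
theorem step (hZ : StZrem) (hT : StTrem) {V : Type} [Fintype V] {G : SimpleGraph V} {lam : ℝ}
    {psi : V → ℝ} (h : Perron G lam psi) (hl : 0 < lam) (n : ℕ) :
    ∀ (W : Type) [Fintype W] (S : SimpleGraph W), Fintype.card W = n + 1 → S.IsTree →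
      ∀ w : W → V → ℝ, (∀ a x, 0 < w a x) →
      lam ^ n * Real.exp (∑ a, ∑ x, psi x ^ 2 * Real.log (w a x)) ≤ ZZ S G w := by
  induction n with
  | zero =>
    intro W _ S hcard hS w hw
    obtain ⟨a, ha⟩ := Fintype.card_eq_one_iff.1 hcard
    have hu : Unique W := ⟨⟨a⟩, ha⟩
    rw [ZZ_unique S a ha, pow_zero, one_mul, Fintype.sum_unique]
    have h2 : (default : W) = a := ha _
    rw [h2]
    exact base h (hw a)
  | succ n ih =>
    intro W _ S hcard hS w hw
    have : Nontrivial W := Fintype.one_lt_card_iff_nontrivial.1 (by omega)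
    obtain ⟨v, hv⟩ := hS.exists_vert_degree_one_of_nontrivial
    rw [← SimpleGraph.card_neighborFinset_eq_degree, Finset.card_eq_one] at hv
    obtain ⟨p, hp⟩ := hv
    have hvp : ∀ u, S.Adj v u ↔ u = p := by
      intro u
      have h1 : u ∈ S.neighborFinset v ↔ u ∈ ({p} : Finset W) := by rw [hp]
      simpa using h1
    have hpv : p ≠ v := fun h1 => (S.ne_of_adj ((hvp p).2 rfl)) h1.symm
    have hF1 : ∀ u ∈ ({v} : Finset W), p ∉ ({v} : Finset W) ∧ ∀ z, S.Adj u z ↔ z = p := by
      intro u hu
      rw [Finset.mem_singleton] at hu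
      subst hu
      exact ⟨fun h1 => hpv (Finset.mem_singleton.1 h1), hvp⟩
    have hZ1 := hZ W V S G {v} w (fun _ => p) hF1
    have hT1 := hT W S {v} hS fun u hu => ⟨p, hF1 u hu⟩
    rw [hZ1]
    generalize hw' : (fun (a : ↥(((({v} : Finset W) : Set W))ᶜ)) (x : V) => w a x *
      ∏ u ∈ ({v} : Finset W).filter (fun u => (fun _ : W => p) u = (a : W)),
        ∑ y, aa G x y * w u y) = w'
    have hprod : ∀ (a : W) (x : V), (∏ u ∈ ({v} : Finset W).filter (fun u => (fun _ : W => p) u = a),
        ∑ y, aa G x y * w u y) = if p = a then ∑ y, aa G x y * w v y else 1 := by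
      intro a x
      by_cases h1 : p = a
      · rw [if_pos h1, Finset.filter_true_of_mem (fun u _ => h1), Finset.prod_singleton]
      · rw [if_neg h1, Finset.filter_false_of_mem (fun u _ => h1), Finset.prod_empty]
    have hw'2 : ∀ a x, w' a x = w a x * if p = (a : W) then ∑ y, aa G x y * w v y else 1 := by
      intro a x
      rw [← hw', ← hprod]
    have hpos : ∀ a x, 0 < w' a x := by
      intro a x
      rw [hw'2]
      refine mul_pos (hw a x) ?_
      split_ifs
      · exact sum_pos_of_pos h hl (hw v) x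
      · exact one_pos
    have hc' : Fintype.card ↥(((({v} : Finset W) : Set W))ᶜ) = n + 1 := by
      rw [← Set.toFinset_card, Set.toFinset_compl, Finset.card_compl, Finset.toFinset_coe,
        Finset.card_singleton]
      omega
    have hih := ih ↥(((({v} : Finset W) : Set W))ᶜ) (S.induce (({v} : Finset W) : Set W)ᶜ) hc' hT1
      w' hpos
    refine le_trans ?_ hih
    rw [pow_succ, mul_assoc]
    refine mul_le_mul_of_nonneg_left ?_ (pow_nonneg hl.le n)
    -- the exponents
    have hlog : ∀ a x, psi x ^ 2 * Real.log (w' a x) = psi x ^ 2 * Real.log (w a x) +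
        if p = (a : W) then psi x ^ 2 * Real.log (∑ y, aa G x y * w v y) else 0 := by
      intro a x
      rw [hw'2]
      split_ifs with h1
      · rw [Real.log_mul (hw a x).ne' (sum_pos_of_pos h hl (hw v) x).ne', mul_add]
      · rw [mul_one, add_zero]
    have hsum : ∑ a, ∑ x, psi x ^ 2 * Real.log (w' a x) =
        (∑ a : ↥(((({v} : Finset W) : Set W))ᶜ), ∑ x, psi x ^ 2 * Real.log (w a x)) +
          ∑ x, psi x ^ 2 * Real.log (∑ y, aa G x y * w v y) := by
      rw [Finset.sum_congr rfl fun a _ => Finset.sum_congr rfl fun x _ => hlog a x]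
      rw [Finset.sum_congr rfl fun a _ => Finset.sum_add_distrib, Finset.sum_add_distrib]
      congr 1
      have hp' : p ∈ ((({v} : Finset W) : Set W))ᶜ := by
        simpa using hpv
      rw [Finset.sum_eq_single (⟨p, hp'⟩ : ↥(((({v} : Finset W) : Set W))ᶜ))]
      · exact Finset.sum_congr rfl fun x _ => if_pos rfl
      · intro b _ hb
        refine Finset.sum_eq_zero fun x _ => if_neg fun h1 => hb (Subtype.ext h1.symm)
      · intro h1
        exact absurd (Finset.mem_univ _) h1
    have hall : ∑ a, ∑ x, psi x ^ 2 * Real.log (w a x) =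
        (∑ x, psi x ^ 2 * Real.log (w v x)) +
        ∑ a : ↥(((({v} : Finset W) : Set W))ᶜ), ∑ x, psi x ^ 2 * Real.log (w a x) := by
      rw [← Finset.sum_add_sum_compl ({v} : Finset W)
        (fun a => ∑ x, psi x ^ 2 * Real.log (w a x)), Finset.sum_singleton]
      congr 1
      refine (Finset.sum_subtype _ (fun a => ?_) _)
      simp
    rw [hsum, hall]
    have hk := key h hl (hw v)
    nth_rewrite 1 [← Real.exp_log hl]
    rw [← Real.exp_add]
    refine Real.exp_le_exp.2 ?_
    linarith

end JenX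

theorem thJen (hZ : StZrem) (hT : StTrem) : StJen := by
  intro W V _ _ S G lam psi hS h hl w hw
  have := hS.1.nonempty
  have h1 : 0 < Fintype.card W := Fintype.card_pos
  exact JenX.step hZ hT h hl (Fintype.card W - 1) W S (by omega) hS w hw

end Pool.Agent.Lib.MP_4e7250_co
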