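import Pool.Agent.Lib.MP_4e7250_co.Stmts

/-! Module C6: the eigenvalue of a tree with at least five leaves. -/

namespace Pool.Agent.Lib.MP_4e7250_co

open Finset

namespace LamAux

open Classical in
/-- The neighbours. -/
noncomputable def nb {V : Type} [Fintype V] (G : SimpleGraph V) (x : V) : Finset V :=
  univ.filter (fun y => G.Adj x y)

lemma mem_nb {V : Type} [Fintype V] {G : SimpleGraph V} {x y : V} : y ∈ nb G x ↔ G.Adj x y := by
  simp [nb]

lemma dg_eq {V : Type} [Fintype V] (G : SimpleGraph V) (x : V) :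
    dg G x = ((nb G x).card : ℝ) := by
  classical
  unfold dg aa nb
  rw [Finset.sum_boole]

lemma sum_le {V : Type} [Fintype V] {G : SimpleGraph V} {lam : ℝ} {psi : V → ℝ}
    (hP : Perron G lam psi) (x : V) (S : Finset V) (hS : S ⊆ nb G x) :
    ∑ y ∈ S, psi y ≤ lam * psi x := by
  classical
  rw [← hP.eig x]
  have h1 : ∑ y, aa G x y * psi y = ∑ y ∈ nb G x, psi y := by
    unfold aa nb
    rw [Finset.sum_filter]
    refine Finset.sum_congr rfl fun y _ => ?_
    split_ifs <;> simp
  rw [h1]
  exact Finset.sum_le_sum_of_subset_of_nonneg hS fun y _ _ => (hP.pos y).le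

/-- The data of an indirect proof. -/
structure Data (V : Type) [Fintype V] (G : SimpleGraph V) (lam : ℝ) (psi : V → ℝ) : Prop where
  hP : Perron G lam psi
  pos : 0 < lam
  lt : lam ^ 2 < 21 / 5
  step : ∀ x y, G.Adj x y → psi x ≤ lam * psi y

variable {V : Type} [Fintype V] {G : SimpleGraph V} {lam : ℝ} {psi : V → ℝ}

lemma Data.lt' (h : Data V G lam psi) : lam < 41 / 20 := by
  have h1 := h.lt
  have h2 := h.pos
  nlinarith

/-- three neighbours -/
lemma Data.three (h : Data V G lam psi) {m y z w : V} (hy : G.Adj m y) (hz : G.Adj m z)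
    (hw : G.Adj m w) (hyz : y ≠ z) (hyw : y ≠ w) (hzw : z ≠ w) :
    psi y + psi z + psi w ≤ lam * psi m := by
  classical
  have h1 := sum_le h.hP m {y, z, w} (by
    intro t ht
    simp only [Finset.mem_insert, Finset.mem_singleton] at ht
    rw [mem_nb]
    rcases ht with rfl | rfl | rfl <;> assumption)
  rw [Finset.sum_insert (by simp [hyz, hyw]), Finset.sum_insert (by simp [hzw]),
    Finset.sum_singleton] at h1
  linarith

lemma Data.two (h : Data V G lam psi) {m y z : V} (hy : G.Adj m y) (hz : G.Adj m z)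
    (hyz : y ≠ z) : psi y + psi z ≤ lam * psi m := by
  classical
  have h1 := sum_le h.hP m {y, z} (by
    intro t ht
    simp only [Finset.mem_insert, Finset.mem_singleton] at ht
    rw [mem_nb]
    rcases ht with rfl | rfl <;> assumption)
  rw [Finset.sum_insert (by simp [hyz]), Finset.sum_singleton] at h1
  linarith

/-- (ii) -/
lemma Data.ii (h : Data V G lam psi) {x y : V} (hxy : G.Adj x y) (hd : 3 ≤ (nb G y).card) :
    4 / 5 * psi x ≤ psi y := by
  classical
  have hx : x ∈ nb G y := mem_nb.2 hxy.symm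
  have h2 : 1 < ((nb G y).erase x).card := by
    rw [Finset.card_erase_of_mem hx]; omega
  obtain ⟨a, ha, b, hb, hab⟩ := Finset.one_lt_card.1 h2
  rw [Finset.mem_erase, mem_nb] at ha hb
  have h3 := h.three hxy.symm ha.2 hb.2 (Ne.symm ha.1) (Ne.symm hb.1) hab
  have h4 := h.step y a ha.2
  have h5 := h.step y b hb.2
  have h6 := h.pos
  have h7 := h.lt
  have h8 := h.hP.pos y
  have h9 := h.hP.pos x
  -- lam * psi x + 2 psi y ≤ lam ^ 2 psi y
  have h10 : lam * (psi x + psi a + psi b) ≤ lam * (lam * psi y) :=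
    mul_le_mul_of_nonneg_left h3 h6.le
  have h11 : lam * psi x ≤ (lam ^ 2 - 2) * psi y := by nlinarith
  have h12 : lam * (4 / 5 * psi x) ≤ lam * psi y := by
    have h13 := h.lt'
    have h14 : 4 / 5 * (lam ^ 2 - 2) ≤ lam := by nlinarith
    have h15 : 4 / 5 * ((lam ^ 2 - 2) * psi y) ≤ lam * psi y := by
      rw [← mul_assoc]
      exact mul_le_mul_of_nonneg_right h14 h8.le
    nlinarith
  exact le_of_mul_le_mul_left h12 h6

/-- (iii) -/
lemma Data.iii (h : Data V G lam psi) {x y z : V} (hxy : G.Adj x y) (hyz : G.Adj y z)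
    (hxz : x ≠ z) (hg : 4 / 5 * psi y ≤ psi z) : 4 / 5 * psi x ≤ psi y := by
  have h1 := h.two hxy.symm hyz hxz
  have h2 := h.lt'
  have h3 := h.hP.pos y
  nlinarith

/-- (v) -/
lemma Data.v (h : Data V G lam psi) {m y z w : V} (hy : G.Adj m y) (hz : G.Adj m z)
    (hw : G.Adj m w) (hyz : y ≠ z) (hyw : y ≠ w) (hzw : z ≠ w)
    (hgy : 4 / 5 * psi m ≤ psi y) (hgz : 4 / 5 * psi m ≤ psi z) : False := by
  have h1 := h.three hy hz hw hyz hyw hzw
  have h2 := h.step m w hw
  have h3 := h.lt'
  have h4 := h.hP.pos m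
  have h5 := h.pos
  have h6 : lam * (8 / 5 * psi m + psi w) ≤ lam * (lam * psi m) :=
    mul_le_mul_of_nonneg_left (by linarith) h5.le
  have h7 : (8 / 5 * lam + 1) * psi m ≤ lam ^ 2 * psi m := by nlinarith
  have h8 : 8 / 5 * lam + 1 ≤ lam ^ 2 := le_of_mul_le_mul_right h7 h4
  nlinarith

/-- (v) for a vertex of degree three -/
lemma Data.v' (h : Data V G lam psi) {m y z : V} (hd : 3 ≤ (nb G m).card) (hy : G.Adj m y)
    (hz : G.Adj m z) (hyz : y ≠ z)
    (hgy : 4 / 5 * psi m ≤ psi y) (hgz : 4 / 5 * psi m ≤ psi z) : False := by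
  classical
  have h1 : 0 < (((nb G m).erase y).erase z).card := by
    rw [Finset.card_erase_of_mem (Finset.mem_erase.2 ⟨hyz.symm, mem_nb.2 hz⟩),
      Finset.card_erase_of_mem (mem_nb.2 hy)]
    omega
  obtain ⟨w, hw⟩ := Finset.card_pos.1 h1
  rw [Finset.mem_erase, Finset.mem_erase, mem_nb] at hw
  exact h.v hy hz hw.2.2 hyz (Ne.symm hw.2.1) (Ne.symm hw.1) hgy hgz

/-- (vi) -/
lemma Data.vi (h : Data V G lam psi) {m y : V} (hd : 4 ≤ (nb G m).card) (hy : G.Adj m y)
    (hgy : 4 / 5 * psi m ≤ psi y) : False := by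
  classical
  have h0 := sum_le h.hP m (nb G m) subset_rfl
  have hy' : y ∈ nb G m := mem_nb.2 hy
  rw [← Finset.add_sum_erase _ _ hy'] at h0
  have h5 := h.pos
  have h4 := h.hP.pos m
  have h1 : ((nb G m).erase y).card • (psi m / lam) ≤ ∑ x ∈ (nb G m).erase y, psi x := by
    refine Finset.card_nsmul_le_sum _ _ _ fun x hx => ?_
    rw [div_le_iff₀ h5, mul_comm]
    exact h.step m x (mem_nb.1 (Finset.mem_of_mem_erase hx))
  have h2 : (3 : ℝ) * (psi m / lam) ≤ ∑ x ∈ (nb G m).erase y, psi x := by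
    refine le_trans ?_ h1
    rw [nsmul_eq_mul]
    refine mul_le_mul_of_nonneg_right ?_ (by positivity)
    rw [Finset.card_erase_of_mem hy']
    have : 3 ≤ (nb G m).card - 1 := by omega
    exact_mod_cast this
  have h6 : 4 / 5 * psi m + 3 * (psi m / lam) ≤ lam * psi m := by linarith
  have h7 : (4 / 5 * lam + 3) * psi m ≤ lam ^ 2 * psi m := by
    have h8 : lam * (4 / 5 * psi m + 3 * (psi m / lam)) ≤ lam * (lam * psi m) :=
      mul_le_mul_of_nonneg_left h6 h5.le
    have h9 : lam * (psi m / lam) = psi m := by field_simp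
    nlinarith
  have h8 : 4 / 5 * lam + 3 ≤ lam ^ 2 := le_of_mul_le_mul_right h7 h4
  have h9 := h.lt
  nlinarith

/-- (iv) -/
lemma Data.iv (h : Data V G lam psi) {b : V} (hb : 3 ≤ (nb G b).card) :
    ∀ {y : V} (p : G.Walk y b) {x : V} (hxy : G.Adj x y), (SimpleGraph.Walk.cons hxy p).IsPath →
      4 / 5 * psi x ≤ psi y := by
  intro y p
  induction p with
  | nil => intro x hxy _; exact h.ii hxy hb
  | @cons u v w huv q ih =>
    intro x hxy hp
    rw [SimpleGraph.Walk.cons_isPath_iff] at hp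
    have h1 := ih hb huv hp.1
    refine h.iii hxy huv ?_ h1
    rintro rfl
    apply hp.2
    rw [SimpleGraph.Walk.support_cons]
    exact List.mem_cons_of_mem _ (SimpleGraph.Walk.start_mem_support _)

/-- the walk along two paths -/
lemma Data.key (h : Data V G lam psi) {b1 b2 : V} (hb : b1 ≠ b2) (h1 : 3 ≤ (nb G b1).card)
    (h2 : 3 ≤ (nb G b2).card) :
    ∀ {x : V} (p1 : G.Walk x b1) (p2 : G.Walk x b2) {y : V}, G.Adj x y →
      4 / 5 * psi x ≤ psi y → p1.IsPath → p2.IsPath → y ∉ p1.support → y ∉ p2.support →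
      False := by
  intro x p1
  induction p1 with
  | nil =>
    intro p2 y hxy hg _ hp2 _ hy2
    cases p2 with
    | nil => exact hb rfl
    | @cons _ v _ hv q =>
      have hvy : v ≠ y := by
        rintro rfl
        apply hy2
        rw [SimpleGraph.Walk.support_cons]
        exact List.mem_cons_of_mem _ (SimpleGraph.Walk.start_mem_support _)
      exact h.v' h1 hv hxy hvy (h.iv h2 q hv hp2) hg
  | @cons u v w huv q ih =>
    intro p2 y hxy hg hp1 hp2 hy1 hy2
    have hvy : v ≠ y := by
      rintro rfl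
      apply hy1
      rw [SimpleGraph.Walk.support_cons]
      exact List.mem_cons_of_mem _ (SimpleGraph.Walk.start_mem_support _)
    have hgv := h.iv h1 q huv hp1
    cases p2 with
    | nil => exact h.v' h2 huv hxy hvy hgv hg
    | @cons _ v' _ hv' q' =>
      have hvy' : v' ≠ y := by
        rintro rfl
        apply hy2
        rw [SimpleGraph.Walk.support_cons]
        exact List.mem_cons_of_mem _ (SimpleGraph.Walk.start_mem_support _)
      by_cases hvv : v = v'
      · subst hvv
        rw [SimpleGraph.Walk.cons_isPath_iff] at hp1 hp2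
        exact ih hb h1 q' huv.symm (h.iii huv.symm hxy hvy hg) hp1.1 hp2.1 hp1.2 hp2.2
      · exact h.v hxy huv hv' hvy.symm hvy'.symm hvv hg hgv

lemma Data.three_false (h : Data V G lam psi) (hG : G.Connected) {a b1 b2 : V} (hb : b1 ≠ b2)
    (hab1 : a ≠ b1) (hab2 : a ≠ b2) (ha : 3 ≤ (nb G a).card) (h1 : 3 ≤ (nb G b1).card)
    (h2 : 3 ≤ (nb G b2).card) : False := by
  obtain ⟨p1, hp1⟩ := hG.exists_isPath a b1
  obtain ⟨p2, hp2⟩ := hG.exists_isPath a b2
  cases p1 with
  | nil => exact hab1 rfl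
  | @cons _ v _ hv q =>
    cases p2 with
    | nil => exact hab2 rfl
    | @cons _ v' _ hv' q' =>
      have hg := h.iv h1 q hv hp1
      have hg' := h.iv h2 q' hv' hp2
      by_cases hvv : v = v'
      · subst hvv
        rw [SimpleGraph.Walk.cons_isPath_iff] at hp1 hp2
        exact h.key hb h1 h2 q q' hv.symm (h.ii hv.symm ha) hp1.1 hp2.1 hp1.2 hp2.2
      · exact h.v' ha hv hv' hvv hg hg'

end LamAux

open LamAux in
theorem thLam (hB : StBasic) (hC : StCnt) : StLam := by
  classical
  intro V _ T lam psi hT h5 hP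
  by_contra hlt
  push Not at hlt
  obtain ⟨-, b1, b2, -, b4, b5, b6, b7⟩ := hB V T
  have hconn : T.Connected := hT.connected
  have hcard : 5 ≤ Fintype.card V := le_trans h5 (Finset.card_le_univ _)
  have hadj : ∃ x y, T.Adj x y := by
    have : Nontrivial V := Fintype.one_lt_card_iff_nontrivial.1 (by omega)
    obtain ⟨x⟩ : Nonempty V := hconn.nonempty
    obtain ⟨y, hy⟩ := hconn.preconnected.exists_adj_of_nontrivial x
    exact ⟨x, y, hy⟩
  have hpos := b6 lam psi hP hadj
  have D : Data V T lam psi := ⟨hP, hpos, hlt, b7 lam psi hP hpos⟩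
  have hdeg : ∀ x, (nb T x).card ≤ 4 := by
    intro x
    have h1 := b5 lam psi hP x
    rw [dg_eq] at h1
    have h2 : ((nb T x).card : ℝ) < 5 := by linarith
    have h3 : (nb T x).card < 5 := by exact_mod_cast h2
    omega
  set B : Finset V := univ.filter (fun x => 3 ≤ (nb T x).card) with hBdef
  have hcount : ∀ c : ℝ, 0 ≤ c → (∀ x, ((nb T x).card : ℝ) - 2 ≤ c ∨ (nb T x).card ≤ 2) →
      ((lv T).card : ℝ) - 2 ≤ c * B.card := by
    intro c hc hx
    have h1 := (hC V T hT).1
    have h2 : ∑ x, (dg T x - 2) ≤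
        ∑ x, ((if x ∈ B then c else 0) - (if x ∈ lv T then 1 else 0)) := by
      refine Finset.sum_le_sum fun x _ => ?_
      by_cases hl : x ∈ lv T
      · have h3 := (b1 x).1 hl
        rw [if_pos hl, h3]
        split_ifs <;> linarith
      · rw [if_neg hl, dg_eq]
        by_cases hxB : x ∈ B
        · rw [if_pos hxB]
          rcases hx x with h4 | h4
          · linarith
          · rw [hBdef, Finset.mem_filter] at hxB
            omega
        · rw [if_neg hxB]
          rw [hBdef, Finset.mem_filter, not_and, not_le] at hxB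
          have h4 := hxB (Finset.mem_univ _)
          have h5 : ((nb T x).card : ℝ) ≤ 2 := by exact_mod_cast (by omega : (nb T x).card ≤ 2)
          linarith
    rw [h1, Finset.sum_sub_distrib, Finset.sum_ite_mem, Finset.sum_ite_mem,
      Finset.univ_inter, Finset.univ_inter, Finset.sum_const, Finset.sum_const, nsmul_eq_mul,
      nsmul_eq_mul] at h2
    linarith
  have h5' : (5 : ℝ) ≤ (lv T).card := by exact_mod_cast h5
  by_cases h4 : ∃ a, 4 ≤ (nb T a).card
  · obtain ⟨a, ha⟩ := h4
    have h6 := hcount 2 (by norm_num) (fun x => by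
      left
      have := hdeg x
      have : ((nb T x).card : ℝ) ≤ 4 := by exact_mod_cast this
      linarith)
    have h7 : (1 : ℝ) < B.card := by linarith
    have h8 : 1 < B.card := by exact_mod_cast h7
    obtain ⟨b, hbB, hba⟩ := Finset.exists_mem_ne h8 a
    rw [hBdef, Finset.mem_filter] at hbB
    obtain ⟨p, hp⟩ := hconn.exists_isPath a b
    cases p with
    | nil => exact hba rfl
    | @cons _ v _ hv q => exact D.vi ha hv (D.iv hbB.2 q hv hp)
  · push Not at h4
    have h6 := hcount 1 (by norm_num) (fun x => by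
      left
      have := h4 x
      have : ((nb T x).card : ℝ) ≤ 3 := by exact_mod_cast (by omega : (nb T x).card ≤ 3)
      linarith)
    have h7 : (2 : ℝ) < B.card := by linarith
    have h8 : 2 < B.card := by exact_mod_cast h7
    obtain ⟨a, ha, b, hb, c, hc, hab, hac, hbc⟩ := Finset.two_lt_card.1 h8
    rw [hBdef, Finset.mem_filter] at ha hb hc
    exact D.three_false hconn hbc hab hac ha.2 hb.2 hc.2

end Pool.Agent.Lib.MP_4e7250_co
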