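import Pool.Agent.Lib.MP_4e7250_co.Stmts

/-! Leaves are free: the lower bound for the number of homomorphisms (B1). -/

namespace Pool.Agent.Lib.MP_4e7250_co

open Finset

namespace Low

theorem mem_lv {V : Type} [Fintype V] (G : SimpleGraph V) (x : V) : x ∈ lv G ↔ IsLeaf G x := by
  unfold lv
  simp

open Classical in
theorem card_rest {W : Type} [Fintype W] (F : Finset W) [Fintype ↥((F : Set W)ᶜ)] :
    Fintype.card ↥((F : Set W)ᶜ) = Fintype.card W - F.card := by
  rw [← Finset.card_compl]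
  exact Fintype.card_of_subtype Fᶜ (by intro x; simp)

open Classical in
theorem sum_fibres {W : Type} [Fintype W] (F : Finset W) [Fintype ↥((F : Set W)ᶜ)] (q : W → W)
    (hq : ∀ v ∈ F, q v ∉ F) :
    ∑ a : ↥((F : Set W)ᶜ), ((F.filter (fun v => q v = (a : W))).card : ℝ) = F.card := by
  have h1 : ∑ a ∈ Fᶜ, ((F.filter (fun v => q v = a)).card : ℝ) =
      ∑ a : ↥((F : Set W)ᶜ), ((F.filter (fun v => q v = (a : W))).card : ℝ) := by
    rw [Finset.sum_subtype (p := fun a => a ∈ ((F : Set W)ᶜ)) (Fᶜ) (by intro x; simp)]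
  rw [← h1]
  have h2 := Finset.card_eq_sum_card_fiberwise (f := q) (s := F) (t := Fᶜ)
    (fun v hv => by simpa using hq v hv)
  rw [h2]
  push_cast
  rfl

end Low

open Classical in
theorem thLow (hB : StBasic) (hZ : StZrem) (hT : StTrem) (hJ : StJen) : StLow := by
  intro W V _ _ T G lam psi hTt hW hG hV hP
  have hconn : T.Connected := hTt.1
  have hex : ∀ v : W, ∃ p : W, v ∈ lv T → ∀ u, T.Adj v u ↔ u = p := by
    intro v
    by_cases h : v ∈ lv T
    · obtain ⟨p, hp⟩ := (Low.mem_lv T v).1 h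
      exact ⟨p, fun _ => hp⟩
    · exact ⟨v, fun h' => absurd h' h⟩
  choose q hq using hex
  have hqn : ∀ v ∈ lv T, q v ∉ lv T := by
    intro v hv
    have had : T.Adj v (q v) := (hq v hv _).2 rfl
    exact (hB W T).2.2.2.1 hconn hW v hv (q v) had
  have hZ1 := hZ W V T G (lv T) (fun _ _ => 1) q (fun v hv => ⟨hqn v hv, hq v hv⟩)
  have hT1 := hT W T (lv T) hTt (fun v hv => ⟨q v, hqn v hv, hq v hv⟩)
  have hdg : ∀ x, 1 ≤ dg G x := (hB V G).2.2.1 hG hV
  have hlam : 0 < lam := by
    apply (hB V G).2.2.2.2.2.2.1 lam psi hP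
    have : Nontrivial V := Fintype.one_lt_card_iff_nontrivial.1 (by omega)
    obtain ⟨x⟩ := hG.nonempty
    obtain ⟨y, hy⟩ := hG.preconnected.exists_adj_of_nontrivial x
    exact ⟨x, y, hy⟩
  have hw : ∀ (a : ↥((lv T : Set W)ᶜ)) (x : V),
      (fun (a : ↥((lv T : Set W)ᶜ)) (x : V) => (fun _ _ => (1 : ℝ)) a x *
        ∏ v ∈ (lv T).filter (fun v => q v = (a : W)), ∑ y, aa G x y * (fun _ _ => (1 : ℝ)) v y) a x
      = dg G x ^ ((lv T).filter (fun v => q v = (a : W))).card := by
    intro a x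
    simp [dg]
  have hJ1 := hJ ↥((lv T : Set W)ᶜ) V (T.induce (lv T : Set W)ᶜ) G lam psi hT1 hP hlam
    (fun a x => dg G x ^ ((lv T).filter (fun v => q v = (a : W))).card)
    (fun a x => pow_pos (lt_of_lt_of_le one_pos (hdg x)) _)
  have hcount : (Nat.card (T →g G) : ℝ) = ZZ (T.induce (lv T : Set W)ᶜ) G
      (fun a x => dg G x ^ ((lv T).filter (fun v => q v = (a : W))).card) := by
    rw [← (hB V G).1 W T, hZ1]
    congr 1
    funext a x
    exact hw a x
  rw [hcount]
  refine le_trans (le_of_eq ?_) hJ1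
  have hexp : ∑ a : ↥((lv T : Set W)ᶜ), ∑ x, psi x ^ 2 *
      Real.log (dg G x ^ ((lv T).filter (fun v => q v = (a : W))).card) =
      (lv T).card * ∑ x, psi x ^ 2 * Real.log (dg G x) := by
    rw [← Low.sum_fibres (lv T) q hqn, Finset.sum_mul]
    refine Finset.sum_congr rfl fun a _ => ?_
    rw [Finset.mul_sum]
    refine Finset.sum_congr rfl fun x _ => ?_
    rw [Real.log_pow]
    ring
  rw [hexp, Low.card_rest]
  have hne : 1 ≤ Fintype.card W - (lv T).card := by
    rw [← Low.card_rest (lv T)]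
    have : Nonempty ↥((lv T : Set W)ᶜ) := hT1.1.nonempty
    exact Fintype.card_pos
  have hk : (∑ x, psi x ^ 2 * Real.log (dg G x)) = kap G lam psi + Real.log lam := by
    unfold kap
    ring
  rw [hk, mul_add, Real.exp_add]
  have hl : Real.exp (((lv T).card : ℝ) * Real.log lam) = lam ^ (lv T).card := by
    rw [mul_comm, Real.exp_mul, Real.exp_log hlam, Real.rpow_natCast]
  rw [hl]
  have hsplit : Fintype.card W - 1 = (Fintype.card W - (lv T).card - 1) + (lv T).card := by omega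
  rw [hsplit, pow_add]
  ring

end Pool.Agent.Lib.MP_4e7250_co
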