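import Pool.Agent.Lib.MP_4e7250_co.Stmts

/-! (C3) a small gain forces leaves of large mass -/

namespace Pool.Agent.Lib.MP_4e7250_co

namespace MassAux

open Finset

lemma ab_bound {a b p q l : ℝ} (ha : 0 ≤ a) (hb : 0 ≤ b) (ha2 : a ≤ 1 / 2) (hb2 : b ≤ 1 / 2)
    (hp : 0 ≤ p) (hp1 : p ≤ 1) (hq1 : q ≤ 1) (hl : 0 < l)
    (hl2 : 21 / 5 ≤ l ^ 2) (hpq : p * q = 1 / l ^ 2) (h1 : |√p - √a| ≤ 1 / 1000)
    (h2 : |√q - √b| ≤ 1 / 1000) : a + b ≤ 9804 / 10000 := by
  have s1 : √p ≤ 1 := by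
    rw [Real.sqrt_le_one]; exact hp1
  have t1 : √q ≤ 1 := by
    rw [Real.sqrt_le_one]; exact hq1
  have hst : √p * √q = 1 / l := by
    rw [← Real.sqrt_mul hp, hpq, Real.sqrt_div zero_le_one, Real.sqrt_one, Real.sqrt_sq hl.le]
  have hl3 : 1 / l ≤ 488 / 1000 := by
    rw [div_le_iff₀ hl]
    by_contra h
    push Not at h
    have : l < 1000 / 488 := by
      rw [lt_div_iff₀ (by norm_num)]; linarith
    nlinarith
  have h3 := (abs_le.1 h1).1
  have h4 := (abs_le.1 h2).1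
  have h5 : √a ≤ √p + 1 / 1000 := by linarith
  have h6 : √b ≤ √q + 1 / 1000 := by linarith
  have h7 : √a * √b ≤ (√p + 1 / 1000) * (√q + 1 / 1000) :=
    mul_le_mul h5 h6 (Real.sqrt_nonneg _) (by positivity)
  have h8 : √a * √b ≤ 4901 / 10000 := by
    nlinarith
  have h9 : a * b = (√a * √b) ^ 2 := by
    rw [mul_pow, Real.sq_sqrt ha, Real.sq_sqrt hb]
  have h10 : 0 ≤ √a * √b := by positivity
  have h11 : a * b ≤ 2402 / 10000 := by
    rw [h9]; nlinarith
  nlinarith [mul_nonneg (sub_nonneg.2 ha2) (sub_nonneg.2 hb2)]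

lemma p_bound {a p : ℝ} (ha : 0 ≤ a) (ha2 : a ≤ 1 / 2) (hp : 0 ≤ p)
    (h1 : |√p - √a| ≤ 1 / 1000) : p ≤ a + 15 / 10000 := by
  have h2 := (abs_le.1 h1).2
  have h3 : √a ≤ 7072 / 10000 := by
    rw [Real.sqrt_le_left (by norm_num)]
    linarith
  have h4 := Real.sqrt_nonneg a
  have h5 := Real.sqrt_nonneg p
  have h6 := Real.sq_sqrt ha
  have h7 := Real.sq_sqrt hp
  nlinarith

end MassAux

open Finset in
theorem thMass (hB : StBasic) (hH : StHel) (hF : StForest) : StMass := by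
  classical
  intro V _ T lam psi hT h3 hP hl2 hkap
  obtain ⟨-, hlv, -, -, hdeg, -, hlam, -⟩ := hB V T
  have hcon : T.Connected := hT.1
  have hnt : Nontrivial V := by
    rw [← Fintype.one_lt_card_iff_nontrivial]; omega
  have hedge : ∃ x y, T.Adj x y := by
    obtain ⟨x⟩ := hcon.nonempty
    obtain ⟨y, hy⟩ := hcon.preconnected.exists_adj_of_nontrivial x
    exact ⟨x, y, hy⟩
  have hl : 0 < lam := hlam lam psi hP hedge
  obtain ⟨hk, hsum, -, hprod, hhel⟩ := hH V T lam psi hcon (by omega) hP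
  have hdeg2 : ∀ x, x ∉ lv T → 2 ≤ dg T x := hdeg hcon (by omega)
  have haa0 : ∀ x y, 0 ≤ aa T x y := fun x y => by unfold aa; split_ifs <;> norm_num
  have haas : ∀ x y, aa T x y = aa T y x := fun x y => by
    unfold aa; simp only [T.adj_comm]
  have hPP0 : ∀ x y, 0 ≤ PP T lam psi x y := fun x y => by
    unfold PP
    have := hP.pos x
    have := hP.pos y
    have := haa0 x y
    positivity
  have hPP1 : ∀ x y, PP T lam psi x y ≤ 1 := fun x y => by
    rw [← hsum x]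
    exact Finset.single_le_sum (f := fun y => PP T lam psi x y) (fun y _ => hPP0 x y)
      (Finset.mem_univ y)
  set m : V → V → ℝ := fun x y => psi x * psi y / lam with hm
  have hms : ∀ x y, m x y = m y x := fun x y => by simp only [hm]; ring
  have hm0 : ∀ x y, 0 ≤ m x y := fun x y => by
    have := hP.pos x
    have := hP.pos y
    simp only [hm]; positivity
  have ham : ∀ x y, aa T x y * m x y = psi x ^ 2 * PP T lam psi x y := fun x y => by
    have := (hP.pos x).ne'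
    simp only [hm]; unfold PP
    field_simp
  have hadjm : ∀ x y, T.Adj x y → m x y = psi x ^ 2 * PP T lam psi x y := fun x y h => by
    rw [← ham]; unfold aa; rw [if_pos h, one_mul]
  have hrow : ∀ x, ∑ y, aa T x y * m x y = psi x ^ 2 := fun x => by
    simp only [ham]; rw [← Finset.mul_sum, hsum, mul_one]
  have hcol : ∀ y, ∑ x, aa T x y * m x y = psi y ^ 2 := fun y => by
    rw [← hrow y]
    exact Finset.sum_congr rfl fun x _ => by rw [haas, hms]
  have hKL0 : ∀ x, 0 ≤ KL T lam psi x := fun x =>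
    le_trans (Finset.sum_nonneg fun y _ => mul_nonneg (haa0 x y) (sq_nonneg _)) (hhel x)
  set Bd : Finset V := univ.filter (fun x => 1 / 10 ^ 6 < KL T lam psi x) with hBd
  have hBdm : ∑ x ∈ Bd, psi x ^ 2 ≤ 1 / 1000 := by
    have h1 : ∑ x ∈ Bd, psi x ^ 2 * (1 / 10 ^ 6) ≤ ∑ x, psi x ^ 2 * KL T lam psi x := by
      refine le_trans (Finset.sum_le_sum (g := fun x => psi x ^ 2 * KL T lam psi x) ?_)
        (Finset.sum_le_sum_of_subset_of_nonneg (Finset.subset_univ _) ?_)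
      · intro x hx
        exact mul_le_mul_of_nonneg_left (Finset.mem_filter.1 hx).2.le (sq_nonneg _)
      · intro x _ _
        exact mul_nonneg (sq_nonneg _) (hKL0 x)
    rw [← hk, ← Finset.sum_mul] at h1
    have h2 : (∑ x ∈ Bd, psi x ^ 2) * (1 / 10 ^ 6) ≤ 1 / 10 ^ 9 := h1.trans hkap
    norm_num at h2 ⊢
    linarith
  have hgood : ∀ x, x ∉ Bd → ∀ y, T.Adj x y →
      |√(PP T lam psi x y) - √(1 / dg T x)| ≤ 1 / 1000 := by
    intro x hx y hy
    have h1 : KL T lam psi x ≤ 1 / 10 ^ 6 := by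
      by_contra h
      exact hx (Finset.mem_filter.2 ⟨Finset.mem_univ _, not_le.1 h⟩)
    have h2 : aa T x y * (√(PP T lam psi x y) - √(1 / dg T x)) ^ 2 ≤ KL T lam psi x :=
      le_trans (Finset.single_le_sum
        (f := fun y => aa T x y * (√(PP T lam psi x y) - √(1 / dg T x)) ^ 2)
        (fun y _ => mul_nonneg (haa0 x y) (sq_nonneg _)) (Finset.mem_univ y)) (hhel x)
    have h3 : aa T x y = 1 := by unfold aa; rw [if_pos hy]
    rw [h3, one_mul] at h2
    apply abs_le_of_sq_le_sq _ (by norm_num)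
    calc _ ≤ _ := h2
      _ ≤ _ := h1
      _ = _ := by norm_num
  set N0 : Finset V := univ.filter (fun x => x ∉ lv T ∧ x ∉ Bd) with hN0
  have hmemN : ∀ x, x ∈ N0 ↔ x ∉ lv T ∧ x ∉ Bd := fun x => by simp [hN0]
  have hd : ∀ x ∈ N0, 0 ≤ 1 / dg T x ∧ 1 / dg T x ≤ 1 / 2 := by
    intro x hx
    have := hdeg2 x ((hmemN x).1 hx).1
    refine ⟨by positivity, ?_⟩
    exact one_div_le_one_div_of_le (by norm_num) this
  -- complement of N0
  have hcompl : ∑ x ∈ N0ᶜ, psi x ^ 2 ≤ piL T psi + 1 / 1000 := by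
    have h1 : N0ᶜ ⊆ lv T ∪ Bd := by
      intro x hx
      rw [Finset.mem_compl, hmemN] at hx
      rw [Finset.mem_union]
      tauto
    have h2 : ∑ x ∈ N0ᶜ, psi x ^ 2 ≤ ∑ x ∈ lv T ∪ Bd, psi x ^ 2 :=
      Finset.sum_le_sum_of_subset_of_nonneg h1 fun _ _ _ => sq_nonneg _
    have h3 : ∑ x ∈ lv T ∪ Bd, psi x ^ 2 ≤ ∑ x ∈ lv T, psi x ^ 2 + ∑ x ∈ Bd, psi x ^ 2 := by
      rw [← Finset.sum_union_inter]
      have : 0 ≤ ∑ x ∈ lv T ∩ Bd, psi x ^ 2 := Finset.sum_nonneg fun _ _ => sq_nonneg _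
      linarith
    unfold piL
    linarith
  -- the forest inequality
  have hforest := hF V T hT m
    (fun x => if x ∈ N0 then psi x ^ 2 * (1 / dg T x + 15 / 10000) else psi x ^ 2) hms ?_ ?_
  rotate_left
  · intro x
    split_ifs with h
    · have := (hd x h).1
      positivity
    · positivity
  · intro x y hxy
    rw [hadjm x y hxy]
    split_ifs with h
    · apply mul_le_mul_of_nonneg_left _ (sq_nonneg _)
      exact MassAux.p_bound (hd x h).1 (hd x h).2 (hPP0 x y)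
        (hgood x ((hmemN x).1 h).2 y hxy)
    · calc _ ≤ psi x ^ 2 * 1 := mul_le_mul_of_nonneg_left (hPP1 x y) (sq_nonneg _)
        _ = _ := mul_one _
  have htot : ∑ x, ∑ y, aa T x y * m x y = 1 := by
    rw [← hP.norm]; exact Finset.sum_congr rfl fun x _ => hrow x
  rw [htot, ← Finset.sum_add_sum_compl N0] at hforest
  have e1 : ∑ x ∈ N0, (if x ∈ N0 then psi x ^ 2 * (1 / dg T x + 15 / 10000) else psi x ^ 2) =
      ∑ x ∈ N0, psi x ^ 2 * (1 / dg T x) + 15 / 10000 * ∑ x ∈ N0, psi x ^ 2 := by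
    rw [Finset.mul_sum, ← Finset.sum_add_distrib]
    refine Finset.sum_congr rfl fun x hx => ?_
    rw [if_pos hx]; ring
  have e2 : ∑ x ∈ N0ᶜ, (if x ∈ N0 then psi x ^ 2 * (1 / dg T x + 15 / 10000) else psi x ^ 2) =
      ∑ x ∈ N0ᶜ, psi x ^ 2 := by
    refine Finset.sum_congr rfl fun x hx => ?_
    rw [if_neg (Finset.mem_compl.1 hx)]
  rw [e1, e2] at hforest
  have e3 : ∑ x ∈ N0, psi x ^ 2 ≤ 1 := by
    rw [← hP.norm]
    exact Finset.sum_le_sum_of_subset_of_nonneg (Finset.subset_univ _) fun _ _ _ => sq_nonneg _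
  -- the sum over N0
  have f1 : ∑ x ∈ N0, psi x ^ 2 * (1 / dg T x) =
      ∑ x ∈ N0, ∑ y ∈ N0, aa T x y * m x y * (1 / dg T x) +
        ∑ x ∈ N0, ∑ y ∈ N0ᶜ, aa T x y * m x y * (1 / dg T x) := by
    rw [← Finset.sum_add_distrib]
    refine Finset.sum_congr rfl fun x _ => ?_
    rw [Finset.sum_add_sum_compl, ← Finset.sum_mul, hrow]
  have f2 : ∑ x ∈ N0, ∑ y ∈ N0ᶜ, aa T x y * m x y * (1 / dg T x) ≤
      1 / 2 * ∑ y ∈ N0ᶜ, psi y ^ 2 := by
    rw [Finset.sum_comm, Finset.mul_sum]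
    refine Finset.sum_le_sum fun y _ => ?_
    rw [← hcol y, Finset.mul_sum]
    refine le_trans (Finset.sum_le_sum (g := fun x => 1 / 2 * (aa T x y * m x y)) ?_)
      (Finset.sum_le_sum_of_subset_of_nonneg (Finset.subset_univ _) ?_)
    · intro x hx
      have h1 := (hd x hx).2
      have h2 := mul_nonneg (haa0 x y) (hm0 x y)
      nlinarith
    · intro x _ _
      have h2 := mul_nonneg (haa0 x y) (hm0 x y)
      positivity
  have f3 : 2 * ∑ x ∈ N0, ∑ y ∈ N0, aa T x y * m x y * (1 / dg T x) =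
      ∑ x ∈ N0, ∑ y ∈ N0, aa T x y * m x y * (1 / dg T x + 1 / dg T y) := by
    have h1 : ∑ x ∈ N0, ∑ y ∈ N0, aa T x y * m x y * (1 / dg T x) =
        ∑ x ∈ N0, ∑ y ∈ N0, aa T x y * m x y * (1 / dg T y) := by
      rw [Finset.sum_comm]
      refine Finset.sum_congr rfl fun x _ => Finset.sum_congr rfl fun y _ => ?_
      rw [haas, hms]
    rw [two_mul]
    nth_rewrite 2 [h1]
    rw [← Finset.sum_add_distrib]
    refine Finset.sum_congr rfl fun x _ => ?_
    rw [← Finset.sum_add_distrib]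
    refine Finset.sum_congr rfl fun y _ => ?_
    ring
  have f4 : ∑ x ∈ N0, ∑ y ∈ N0, aa T x y * m x y * (1 / dg T x + 1 / dg T y) ≤
      9804 / 10000 := by
    have h1 : ∑ x ∈ N0, ∑ y ∈ N0, aa T x y * m x y * (1 / dg T x + 1 / dg T y) ≤
        ∑ x ∈ N0, ∑ y ∈ N0, aa T x y * m x y * (9804 / 10000) := by
      refine Finset.sum_le_sum fun x hx => Finset.sum_le_sum fun y hy => ?_
      by_cases hxy : T.Adj x y
      · apply mul_le_mul_of_nonneg_left _ (mul_nonneg (haa0 x y) (hm0 x y))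
        exact MassAux.ab_bound (hd x hx).1 (hd y hy).1 (hd x hx).2 (hd y hy).2
          (hPP0 x y) (hPP1 x y) (hPP1 y x) hl hl2 (hprod x y hxy)
          (hgood x ((hmemN x).1 hx).2 y hxy) (hgood y ((hmemN y).1 hy).2 x hxy.symm)
      · have : aa T x y = 0 := by unfold aa; rw [if_neg hxy]
        rw [this]; simp
    have h2 : ∑ x ∈ N0, ∑ y ∈ N0, aa T x y * m x y * (9804 / 10000) ≤
        ∑ x, ∑ y, aa T x y * m x y * (9804 / 10000) := by
      refine le_trans (Finset.sum_le_sum (g := fun x => ∑ y, aa T x y * m x y * (9804 / 10000)) ?_)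
        (Finset.sum_le_sum_of_subset_of_nonneg (Finset.subset_univ _) ?_)
      · intro x _
        refine Finset.sum_le_sum_of_subset_of_nonneg (Finset.subset_univ _) fun y _ _ => ?_
        have h2 := mul_nonneg (haa0 x y) (hm0 x y)
        positivity
      · intro x _ _
        refine Finset.sum_nonneg fun y _ => ?_
        have h2 := mul_nonneg (haa0 x y) (hm0 x y)
        positivity
    have h3 : ∑ x, ∑ y, aa T x y * m x y * (9804 / 10000) = 9804 / 10000 := by
      simp only [← Finset.sum_mul]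
      rw [htot, one_mul]
    linarith
  have hpiL0 : 0 ≤ piL T psi := Finset.sum_nonneg fun _ _ => sq_nonneg _
  linarith

end Pool.Agent.Lib.MP_4e7250_co
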