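import Pool.Agent.Lib.MP_4e7250_co.Stmts

/-! (D1) homomorphisms from a path are walks. -/

namespace Pool.Agent.Lib.MP_4e7250_co

open Finset

namespace PathAux

/-- Walks with `k` steps from `x`, as functions. -/
def Wk {V : Type} (G : SimpleGraph V) (k : ℕ) (x : V) : Type :=
  {f : Fin (k + 1) → V // f 0 = x ∧ ∀ i : Fin k, G.Adj (f i.castSucc) (f i.succ)}

/-- All walks with `k` steps. -/
def Wa {V : Type} (G : SimpleGraph V) (k : ℕ) : Type :=
  {f : Fin (k + 1) → V // ∀ i : Fin k, G.Adj (f i.castSucc) (f i.succ)}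

/-- A homomorphism from a path is a walk. -/
def homEquiv {V : Type} (G : SimpleGraph V) (k : ℕ) :
    (SimpleGraph.pathGraph (k + 1) →g G) ≃ Wa G k where
  toFun f := ⟨fun i => f i, fun i => f.map_rel (SimpleGraph.pathGraph_adj.2 (Or.inl (by simp)))⟩
  invFun f := ⟨f.1, fun {a b} h => by
    rcases SimpleGraph.pathGraph_adj.1 h with h | h
    · have hb : a.val < k := by omega
      have := f.2 ⟨a.val, hb⟩
      have e1 : (⟨a.val, hb⟩ : Fin k).castSucc = a := by ext; simp
      have e2 : (⟨a.val, hb⟩ : Fin k).succ = b := by ext; simp [h]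
      rwa [e1, e2] at this
    · have hb : b.val < k := by omega
      have := f.2 ⟨b.val, hb⟩
      have e1 : (⟨b.val, hb⟩ : Fin k).castSucc = b := by ext; simp
      have e2 : (⟨b.val, hb⟩ : Fin k).succ = a := by ext; simp [h]
      rw [e1, e2] at this
      exact this.symm⟩
  left_inv f := by ext; rfl
  right_inv f := by rfl

/-- Walks sorted by the first vertex. -/
def fibEquiv {V : Type} (G : SimpleGraph V) (k : ℕ) : Wa G k ≃ Σ x : V, Wk G k x where
  toFun f := ⟨f.1 0, ⟨f.1, rfl, f.2⟩⟩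
  invFun p := ⟨p.2.1, p.2.2.2⟩
  left_inv f := by rfl
  right_inv p := by
    obtain ⟨x, f, rfl, h⟩ := p
    rfl

/-- The first step of a walk. -/
def stepEquiv {V : Type} (G : SimpleGraph V) (k : ℕ) (x : V) :
    Wk G (k + 1) x ≃ Σ y : {y : V // G.Adj x y}, Wk G k y.1 where
  toFun f := ⟨⟨f.1 1, by
      have h := f.2.2 0
      rw [Fin.castSucc_zero, f.2.1] at h
      exact h⟩, ⟨fun i => f.1 i.succ, rfl, fun i => by
      have h := f.2.2 i.succ
      rwa [← Fin.succ_castSucc] at h⟩⟩
  invFun p := ⟨Fin.cons x p.2.1, rfl, fun i => by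
    refine Fin.cases ?_ (fun j => ?_) i
    · have h := p.1.2
      rw [Fin.castSucc_zero, Fin.cons_zero, Fin.cons_succ, p.2.2.1]
      exact h
    · rw [← Fin.succ_castSucc, Fin.cons_succ, Fin.cons_succ]
      exact p.2.2.2 j⟩
  left_inv f := by
    obtain ⟨f, rfl, h⟩ := f
    apply Subtype.ext
    funext i
    refine Fin.cases ?_ (fun j => ?_) i <;> rfl
  right_inv p := by
    obtain ⟨⟨y, hy⟩, f, hf, h⟩ := p
    simp only at hf
    subst hf
    rfl

instance {V : Type} [Finite V] (G : SimpleGraph V) (k : ℕ) (x : V) : Finite (Wk G k x) :=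
  inferInstanceAs (Finite {_f : Fin (k + 1) → V // _})

instance {V : Type} [Finite V] (G : SimpleGraph V) (k : ℕ) : Finite (Wa G k) :=
  inferInstanceAs (Finite {_f : Fin (k + 1) → V // _})

open Classical in
theorem card_step {V : Type} [Fintype V] (G : SimpleGraph V) (k : ℕ) (x : V) :
    (Nat.card (Wk G (k + 1) x) : ℝ) = ∑ y, aa G x y * (Nat.card (Wk G k y) : ℝ) := by
  rw [Nat.card_congr (stepEquiv G k x), Nat.card_sigma]
  push_cast
  have h : ∀ y, aa G x y * (Nat.card (Wk G k y) : ℝ) =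
      if G.Adj x y then (Nat.card (Wk G k y) : ℝ) else 0 := by
    intro y
    unfold aa
    split_ifs <;> simp
  rw [Finset.sum_congr rfl fun y _ => h y, ← Finset.sum_filter]
  rw [Finset.sum_subtype (p := fun y => G.Adj x y) (univ.filter fun y => G.Adj x y)
    (fun y => by simp) (fun y => (Nat.card (Wk G k y) : ℝ))]

theorem card_zero {V : Type} (G : SimpleGraph V) (x : V) : Nat.card (Wk G 0 x) = 1 := by
  rw [Nat.card_eq_one_iff_unique]
  refine ⟨⟨fun a b => ?_⟩, ⟨⟨fun _ => x, rfl, fun i => i.elim0⟩⟩⟩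
  apply Subtype.ext
  funext i
  have hi : i = 0 := by omega
  rw [hi, a.2.1, b.2.1]

end PathAux

open PathAux in
theorem thPath : StPath := by
  intro V _ G
  refine ⟨fun k x => (Nat.card (Wk G k x) : ℝ), fun x => ?_, fun k x => card_step G k x,
    fun k => ?_⟩
  · simp only
    rw [card_zero]
    simp
  · rw [Nat.card_congr ((homEquiv G k).trans (fibEquiv G k)), Nat.card_sigma]
    push_cast
    rfl

end Pool.Agent.Lib.MP_4e7250_co
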