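import Pool.Agent.Lib.MP_4e7250_co.Stmts

/-! Module A1: the positive eigenvector of a connected graph. -/

namespace Pool.Agent.Lib.MP_4e7250_co

open Finset

namespace PerronAux

variable {V : Type} (G : SimpleGraph V)

lemma aa_nonneg (x y : V) : 0 ≤ aa G x y := by
  unfold aa; split_ifs <;> norm_num

lemma aa_symm (x y : V) : aa G x y = aa G y x := by
  unfold aa
  by_cases h : G.Adj x y
  · rw [if_pos h, if_pos h.symm]
  · rw [if_neg h, if_neg fun h' => h h'.symm]

lemma aa_self (x : V) : aa G x x = 0 := by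
  unfold aa; simp

lemma aa_adj {x y : V} (h : G.Adj x y) : aa G x y = 1 := by
  unfold aa; simp [h]

variable [Fintype V]

/-- The quadratic form. -/
noncomputable def Q (f : V → ℝ) : ℝ := ∑ x, ∑ y, aa G x y * (f x * f y)

lemma Q_cont : Continuous (Q G) := by
  unfold Q
  fun_prop

lemma Q_smul (c : ℝ) (f : V → ℝ) : Q G (fun x => c * f x) = c ^ 2 * Q G f := by
  unfold Q
  simp only [Finset.mul_sum]
  exact Finset.sum_congr rfl fun x _ => Finset.sum_congr rfl fun y _ => by ring

lemma Q_abs (f : V → ℝ) : Q G f ≤ Q G (fun x => |f x|) := by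
  unfold Q
  refine Finset.sum_le_sum fun x _ => Finset.sum_le_sum fun y _ => ?_
  refine mul_le_mul_of_nonneg_left ?_ (aa_nonneg G x y)
  rw [← abs_mul]
  exact le_abs_self _

lemma isCompact_sphere : IsCompact {f : V → ℝ | ∑ x, f x ^ 2 = 1} := by
  refine Metric.isCompact_of_isClosed_isBounded ?_ ?_
  · exact isClosed_singleton.preimage (f := fun f : V → ℝ => ∑ x, f x ^ 2) (by fun_prop)
  · refine (Metric.isBounded_closedBall (x := (0 : V → ℝ)) (r := 1)).subset fun f hf => ?_
    rw [mem_closedBall_zero_iff, pi_norm_le_iff_of_nonneg zero_le_one]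
    intro x
    have h1 : f x ^ 2 ≤ ∑ x, f x ^ 2 :=
      Finset.single_le_sum (f := fun x => f x ^ 2) (fun y _ => sq_nonneg _) (Finset.mem_univ x)
    have h2 : ∑ x, f x ^ 2 = 1 := hf
    rw [h2] at h1
    rw [Real.norm_eq_abs]
    exact abs_le_one_iff_mul_self_le_one.mpr (by rw [← sq]; exact h1)

open Classical in
lemma Q_bump (f : V → ℝ) (x : V) (t : ℝ) :
    Q G (fun y => f y + t * (if y = x then 1 else 0)) =
      Q G f + 2 * t * ∑ y, aa G x y * f y := by
  unfold Q
  have e : ∀ a b : V, aa G a b * ((f a + t * (if a = x then 1 else 0)) *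
      (f b + t * (if b = x then 1 else 0))) =
      aa G a b * (f a * f b) + t * ((if a = x then aa G a b * f b else 0)) +
        t * (if b = x then aa G a b * f a else 0) +
        t ^ 2 * (if b = x then (if a = x then aa G a b else 0) else 0) := by
    intro a b
    split_ifs <;> ring
  simp only [e, Finset.sum_add_distrib, ← Finset.mul_sum, Finset.sum_ite_eq', Finset.mem_univ,
    if_true]
  have e1 : ∑ a, ∑ b, (if a = x then aa G a b * f b else 0) = ∑ b, aa G x b * f b := by
    rw [Finset.sum_eq_single x]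
    · simp
    · intro a _ ha
      simp [ha]
    · intro h
      exact absurd (Finset.mem_univ x) h
  have e2 : ∑ a, aa G a x * f a = ∑ b, aa G x b * f b :=
    Finset.sum_congr rfl fun a _ => by rw [aa_symm]
  rw [e1, e2, aa_self]
  ring

open Classical in
lemma norm_bump (f : V → ℝ) (x : V) (t : ℝ) :
    ∑ y, (f y + t * (if y = x then 1 else 0)) ^ 2 = ∑ y, f y ^ 2 + 2 * t * f x + t ^ 2 := by
  have e : ∀ y, (f y + t * (if y = x then 1 else 0)) ^ 2 =
      f y ^ 2 + 2 * t * (if y = x then f y else 0) + t ^ 2 * (if y = x then 1 else 0) := by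
    intro y
    split_ifs <;> ring
  simp only [e, Finset.sum_add_distrib, ← Finset.mul_sum, Finset.sum_ite_eq', Finset.mem_univ,
    if_true]
  ring

end PerronAux

open PerronAux in
theorem thPerron : StPerron := by
  intro V _ G hG
  classical
  obtain ⟨x₀⟩ := hG.nonempty
  have hne : {f : V → ℝ | ∑ x, f x ^ 2 = 1}.Nonempty := by
    refine ⟨fun y => if y = x₀ then 1 else 0, ?_⟩
    change ∑ y, (if y = x₀ then (1 : ℝ) else 0) ^ 2 = 1
    simp
  obtain ⟨f, hf, hmax⟩ := isCompact_sphere.exists_isMaxOn hne (Q_cont G).continuousOn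
  set g : V → ℝ := fun x => |f x| with hg
  have hg1 : ∑ x, g x ^ 2 = 1 := by
    have : ∑ x, f x ^ 2 = 1 := hf
    simpa only [hg, sq_abs] using this
  have hg0 : ∀ x, 0 ≤ g x := fun x => abs_nonneg _
  set lam := Q G g with hlam
  have hQ : ∀ h : V → ℝ, ∑ x, h x ^ 2 = 1 → Q G h ≤ lam := fun h hh =>
    (hmax hh).trans (Q_abs G f)
  have hQ' : ∀ h : V → ℝ, Q G h ≤ lam * ∑ x, h x ^ 2 := by
    intro h
    have hs0 : 0 ≤ ∑ x, h x ^ 2 := Finset.sum_nonneg fun x _ => sq_nonneg _
    rcases hs0.eq_or_lt with hs | hs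
    · have h0 : ∀ x, h x = 0 := by
        intro x
        have := (Finset.sum_eq_zero_iff_of_nonneg (fun x _ => sq_nonneg (h x))).mp hs.symm x
          (Finset.mem_univ x)
        exact pow_eq_zero_iff (by norm_num) |>.mp this
      rw [← hs, mul_zero]
      unfold Q
      simp [h0]
    · set s := ∑ x, h x ^ 2 with hs'
      have h1 := hQ (fun x => (√s)⁻¹ * h x) (by
        simp only [mul_pow, ← Finset.mul_sum]
        rw [← hs', inv_pow, Real.sq_sqrt hs0, inv_mul_cancel₀ hs.ne'])
      rw [Q_smul, inv_pow, Real.sq_sqrt hs0] at h1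
      rw [inv_mul_le_iff₀ hs] at h1
      linarith
  have heig : ∀ x, ∑ y, aa G x y * g y = lam * g x := by
    intro x
    set d := ∑ y, aa G x y * g y - lam * g x with hd
    have h1 : ∀ t : ℝ, 2 * t * d ≤ lam * t ^ 2 := by
      intro t
      have h2 := hQ' (fun y => g y + t * (if y = x then 1 else 0))
      rw [Q_bump, norm_bump, hg1, ← hlam] at h2
      rw [hd]
      nlinarith
    set L := |lam| + 1 with hL
    have hL0 : 0 < L := by positivity
    have hL1 : lam < L := by have := le_abs_self lam; linarith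
    have h2 := h1 (d / L)
    have h3 : 2 * (d / L) * d = 2 * d ^ 2 / L := by ring
    have h4 : lam * (d / L) ^ 2 = lam * d ^ 2 / L ^ 2 := by rw [div_pow, mul_div_assoc]
    rw [h3, h4, div_le_div_iff₀ hL0 (by positivity)] at h2
    have h5 : d ^ 2 * (L * (2 * L - lam)) ≤ 0 := by nlinarith
    have h6 : 0 < L * (2 * L - lam) := by
      have : 0 < 2 * L - lam := by linarith
      positivity
    have h7 : d ^ 2 ≤ 0 := by
      by_contra hc
      push Not at hc
      have := mul_pos hc h6
      linarith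
    have h8 : d = 0 := by
      have := sq_nonneg d
      have h9 : d ^ 2 = 0 := le_antisymm h7 this
      exact pow_eq_zero_iff (by norm_num) |>.mp h9
    rw [hd] at h8
    linarith
  refine ⟨lam, g, ⟨fun x => ?_, heig, hg1⟩⟩
  by_contra hx
  have hx0 : g x = 0 := le_antisymm (not_lt.mp hx) (hg0 x)
  have hstep : ∀ u v, G.Adj u v → g u = 0 → g v = 0 := by
    intro u v huv hu
    have h1 := heig u
    rw [hu, mul_zero] at h1
    have h2 := (Finset.sum_eq_zero_iff_of_nonneg
      (fun y _ => mul_nonneg (aa_nonneg G u y) (hg0 y))).mp h1 v (Finset.mem_univ v)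
    rwa [aa_adj G huv, one_mul] at h2
  have hall : ∀ v, g v = 0 := by
    intro v
    obtain ⟨p⟩ := hG.preconnected x v
    induction p with
    | nil => exact hx0
    | cons h _ ih => exact ih (by rw [hstep _ _ h hx0]; exact lt_irrefl _) (hstep _ _ h hx0)
  have : ∑ x, g x ^ 2 = 0 := by simp [hall]
  rw [hg1] at this
  norm_num at this

end Pool.Agent.Lib.MP_4e7250_co
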