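import Pool.Agent.Lib.MP_4e7250_co.Stmts

/-! (B3) the stars. -/

namespace Pool.Agent.Lib.MP_4e7250_co

open Finset

namespace StarAux

/-- In a connected graph with a vertex all of whose neighbours are leaves every other vertex is
adjacent to it. -/
theorem all_adj {V : Type} {G : SimpleGraph V} (hG : G.Connected) {c : V}
    (hc : ∀ y, G.Adj c y → IsLeaf G y) (v : V) : v = c ∨ G.Adj c v := by
  obtain ⟨p⟩ := hG.preconnected v c
  induction p with
  | nil => exact Or.inl rfl
  | @cons a b d hab p ih =>
    rcases ih hc with rfl | h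
    · exact Or.inr hab.symm
    · obtain ⟨q, hq⟩ := hc b h
      have h1 : a = q := (hq a).1 hab.symm
      have h2 : d = q := (hq d).1 h.symm
      exact Or.inl (h1.trans h2.symm)

theorem main {V : Type} [Fintype V] [DecidableEq V] {T : SimpleGraph V} {lam : ℝ} {psi : V → ℝ}
    {c : V} {L : Finset V} (hL : L = lv T) (h5 : 5 ≤ L.card)
    (hcL : c ∉ L) (hadj : ∀ v, v ∈ L ↔ T.Adj c v) (hall : ∀ v, v = c ∨ v ∈ L)
    (hP : Perron T lam psi) :
    lam ^ (Fintype.card V - 1) * Real.exp (L.card / 2) ≤ Nat.card (T →g T) := by
  have hcard : Fintype.card V - 1 = L.card := by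
    have h1 : (univ : Finset V) = insert c L := by
      ext v
      simp only [mem_univ, mem_insert, true_iff]
      exact hall v
    rw [← Finset.card_univ, h1, Finset.card_insert_of_notMem hcL]
    rfl
  have hleaf : ∀ y ∈ L, ∀ u, T.Adj y u ↔ u = c := by
    intro y hy u
    have h1 : y ∈ lv T := hL ▸ hy
    simp only [lv, mem_filter, mem_univ, true_and] at h1
    obtain ⟨q, hq⟩ := h1
    have h2 : c = q := (hq c).1 ((hadj y).1 hy).symm
    rw [h2]
    exact hq u
  -- the eigenvalue
  have hp1 : ∀ y ∈ L, psi c = lam * psi y := by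
    intro y hy
    rw [← hP.eig y, Finset.sum_eq_single c]
    · rw [aa, if_pos ((hleaf y hy c).2 rfl), one_mul]
    · intro u _ hu
      rw [aa, if_neg fun h => hu ((hleaf y hy u).1 h), zero_mul]
    · intro h
      exact absurd (mem_univ _) h
  have hp2 : ∑ y ∈ L, psi y = lam * psi c := by
    rw [← hP.eig c, ← Finset.sum_subset (Finset.subset_univ L)]
    · refine Finset.sum_congr rfl fun y hy => ?_
      rw [aa, if_pos ((hadj y).1 hy), one_mul]
    · intro u _ hu
      rw [aa, if_neg fun h => hu ((hadj u).2 h), zero_mul]
  have hpc := hP.pos c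
  have hlam2 : lam ^ 2 = L.card := by
    have h1 : lam * ∑ y ∈ L, psi y = L.card * psi c := by
      rw [Finset.mul_sum, Finset.sum_congr rfl fun y hy => (hp1 y hy).symm, Finset.sum_const,
        nsmul_eq_mul]
    rw [hp2] at h1
    have h2 : lam ^ 2 * psi c = L.card * psi c := by rw [← h1]; ring
    exact mul_right_cancel₀ hpc.ne' h2
  have hlam : 0 < lam := by
    obtain ⟨y, hy⟩ : L.Nonempty := Finset.card_pos.1 (by omega)
    have h1 := hp1 y hy
    have h2 := hP.pos y
    by_contra h
    push Not at h
    nlinarith
  -- many homomorphisms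
  have hcount : L.card ^ L.card ≤ Nat.card (T →g T) := by
    have hfin : Finite (T →g T) := Finite.of_injective (fun f : T →g T => (f : V → V))
      DFunLike.coe_injective
    let F : (L → L) → (T →g T) := fun g =>
      { toFun := fun v => if h : v ∈ L then (g ⟨v, h⟩ : V) else c
        map_rel' := by
          intro a b hab
          by_cases ha : a ∈ L
          · have hb : b = c := (hleaf a ha b).1 hab
            have hb' : b ∉ L := by rw [hb]; exact hcL
            rw [dif_pos ha, dif_neg hb']
            exact ((hadj _).1 (g ⟨a, ha⟩).2).symm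
          · have ha' : a = c := (hall a).resolve_right ha
            have hb : b ∈ L := (hadj b).2 (ha' ▸ hab)
            rw [dif_neg ha, dif_pos hb]
            exact (hadj _).1 (g ⟨b, hb⟩).2 }
    have hF : Function.Injective F := by
      intro g g' h
      funext v
      have h1 : F g v = F g' v := by rw [h]
      have h2 : ∀ g : L → L, F g v = g v := by
        intro g
        show (if h : (v : V) ∈ L then (g ⟨v, h⟩ : V) else c) = _
        rw [dif_pos v.2]
      rw [h2, h2] at h1
      exact Subtype.ext h1
    have h1 := Nat.card_le_card_of_injective F hF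
    rwa [Nat.card_fun, Nat.card_eq_fintype_card, Fintype.card_coe] at h1
  rw [hcard]
  have h1 : ((L.card : ℝ)) ^ L.card ≤ (Nat.card (T →g T) : ℝ) := by exact_mod_cast hcount
  refine le_trans ?_ h1
  have h5' : (5 : ℝ) ≤ L.card := by exact_mod_cast h5
  have he : Real.exp 1 ≤ L.card := by
    have := Real.exp_one_lt_d9
    linarith
  refine (pow_le_pow_iff_left₀ (by positivity) (by positivity) two_ne_zero).1 ?_
  have h2 : (lam ^ L.card * Real.exp (L.card / 2)) ^ 2 = (L.card * Real.exp 1) ^ L.card := by
    rw [mul_pow, ← pow_mul, mul_comm L.card 2, pow_mul, hlam2, ← Real.exp_nat_mul, mul_pow,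
      ← Real.exp_nat_mul]
    congr 2
    push_cast
    ring
  rw [h2, ← pow_mul, mul_comm L.card 2, pow_mul]
  refine pow_le_pow_left₀ (by positivity) ?_ _
  rw [sq]
  exact mul_le_mul_of_nonneg_left he (by positivity)

end StarAux

open StarAux in
theorem thStar (_ : StBasic) : StStar := by
  classical
  intro V _ T lam psi hT h5 hUp hP
  simp only [Up, not_forall, not_exists, not_and, not_not] at hUp
  obtain ⟨x, hx, c, hxc, hc⟩ := hUp
  have hc' : ∀ y, T.Adj c y → IsLeaf T y := by
    intro y hy
    have := hc y hy
    simpa only [lv, mem_filter, mem_univ, true_and] using this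
  have hall := all_adj hT.connected hc'
  have hcL : c ∉ lv T := by
    intro h
    simp only [lv, mem_filter, mem_univ, true_and] at h
    obtain ⟨q, hq⟩ := h
    have h1 : lv T ⊆ {c, q} := by
      intro v _
      rcases hall v with h | h
      · simp [h]
      · simp [(hq v).1 h]
    have h2 := Finset.card_le_card h1
    have h3 := Finset.card_le_two (a := c) (b := q)
    omega
  exact main rfl h5 hcL
    (fun v => ⟨fun h => (hall v).resolve_left fun h' => hcL (h' ▸ h), fun h => hc v h⟩)
    (fun v => (hall v).imp_right fun h => hc v h) hP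

end Pool.Agent.Lib.MP_4e7250_co
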