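import Pool.Agent.Lib.MP_4e7250_co.Defs

/-! Statements (as propositions) of the modules. -/

namespace Pool.Agent.Lib.MP_4e7250_co

open Finset

/-! ### Part A: general facts -/

/-- (A1) Perron vector of a connected graph -/
def StPerron : Prop := ∀ (V : Type) [Fintype V] (G : SimpleGraph V), G.Connected →
  ∃ (lam : ℝ) (psi : V → ℝ), Perron G lam psi

/-- (A2) first facts on degrees, leaves, homomorphisms -/
def StBasic : Prop := ∀ (V : Type) [Fintype V] (G : SimpleGraph V),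
  (∀ (W : Type) [Fintype W] (S : SimpleGraph W), ZZ S G (fun _ _ => 1) = Nat.card (S →g G)) ∧
  (∀ x, x ∈ lv G ↔ dg G x = 1) ∧
  (G.Connected → 2 ≤ Fintype.card V → ∀ x, 1 ≤ dg G x) ∧
  (G.Connected → 3 ≤ Fintype.card V → ∀ x ∈ lv G, ∀ c, G.Adj x c → c ∉ lv G) ∧
  (G.Connected → 2 ≤ Fintype.card V → ∀ x, x ∉ lv G → 2 ≤ dg G x) ∧
  (∀ lam psi, Perron G lam psi → ∀ x, dg G x ≤ lam ^ 2) ∧
  (∀ lam psi, Perron G lam psi → (∃ x y, G.Adj x y) → 0 < lam) ∧
  (∀ lam psi, Perron G lam psi → 0 < lam → ∀ x y, G.Adj x y → psi x ≤ lam * psi y)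

open Classical in
/-- (A3) removing a set of leaves, weighted homomorphisms -/
def StZrem : Prop := ∀ (W V : Type) [Fintype W] [Fintype V] (S : SimpleGraph W)
  (G : SimpleGraph V) (F : Finset W) [Fintype ↥((F : Set W)ᶜ)] (w : W → V → ℝ) (q : W → W),
  (∀ v ∈ F, q v ∉ F ∧ ∀ u, S.Adj v u ↔ u = q v) →
  ZZ S G w = ZZ (S.induce (F : Set W)ᶜ) G (fun a x => w a x *
    ∏ v ∈ F.filter (fun v => q v = a), ∑ y, aa G x y * w v y)

/-- (A4) removing a set of leaves, trees -/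
def StTrem : Prop := ∀ (W : Type) [Fintype W] (S : SimpleGraph W) (F : Finset W),
  S.IsTree → (∀ v ∈ F, ∃ p, p ∉ F ∧ ∀ u, S.Adj v u ↔ u = p) → (S.induce (F : Set W)ᶜ).IsTree

/-- (A5) the lower bound of Csikvari and Lin with vertex weights -/
def StJen : Prop := ∀ (W V : Type) [Fintype W] [Fintype V] (S : SimpleGraph W)
  (G : SimpleGraph V) (lam : ℝ) (psi : V → ℝ), S.IsTree → Perron G lam psi → 0 < lam →
  ∀ w : W → V → ℝ, (∀ a x, 0 < w a x) →
  lam ^ (Fintype.card W - 1) * Real.exp (∑ a, ∑ x, psi x ^ 2 * Real.log (w a x)) ≤ ZZ S G w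

/-- (A6) the number of leaves of a tree -/
def StCnt : Prop := ∀ (V : Type) [Fintype V] (T : SimpleGraph V), T.IsTree →
  ∑ x, (dg T x - 2) = -2 ∧
  (2 ≤ Fintype.card V → ∑ x, (dg T x - 2) ^ 2 ≤ 2 * ((lv T).card : ℝ) ^ 2)

/-! ### Part B: lower bounds for the number of homomorphisms -/

/-- (B1) leaves are free -/
def StLow : Prop := ∀ (W V : Type) [Fintype W] [Fintype V] (T : SimpleGraph W)
  (G : SimpleGraph V) (lam : ℝ) (psi : V → ℝ), T.IsTree → 3 ≤ Fintype.card W → G.Connected →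
  2 ≤ Fintype.card V → Perron G lam psi →
  lam ^ (Fintype.card W - 1) * Real.exp ((lv T).card * kap G lam psi) ≤ Nat.card (T →g G)

/-- (B2) a vertex with many leaves is moved away from the leaves -/
def StUpg : Prop := ∀ (W V : Type) [Fintype W] [Fintype V] (T : SimpleGraph W)
  (G : SimpleGraph V) (lam : ℝ) (psi : V → ℝ), T.IsTree → 3 ≤ Fintype.card W → G.Connected →
  3 ≤ Fintype.card V → Up G → Perron G lam psi →
  ∀ u v, T.Adj u v → u ∉ lv T → v ∉ lv T →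
  lam ^ (Fintype.card W - 1) *
      Real.exp ((lv T).card * kap G lam psi + kl T u * piL G psi * Real.log 2) ≤
    lam ^ 2 * Nat.card (T →g G)

/-- (B3) the stars -/
def StStar : Prop := ∀ (V : Type) [Fintype V] (T : SimpleGraph V) (lam : ℝ) (psi : V → ℝ),
  T.IsTree → 5 ≤ (lv T).card → ¬ Up T → Perron T lam psi →
  lam ^ (Fintype.card V - 1) * Real.exp ((lv T).card / 2) ≤ Nat.card (T →g T)

/-! ### Part C: the Markov chain of a tree -/

/-- (C1) relative entropy and Hellinger distance -/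
def StHel : Prop := ∀ (V : Type) [Fintype V] (G : SimpleGraph V) (lam : ℝ) (psi : V → ℝ),
  G.Connected → 2 ≤ Fintype.card V → Perron G lam psi →
  kap G lam psi = ∑ x, psi x ^ 2 * KL G lam psi x ∧
  (∀ x, ∑ y, PP G lam psi x y = 1) ∧
  (∀ x y, psi x ^ 2 * PP G lam psi x y = psi y ^ 2 * PP G lam psi y x) ∧
  (∀ x y, G.Adj x y → PP G lam psi x y * PP G lam psi y x = 1 / lam ^ 2) ∧
  ∀ x, ∑ y, aa G x y * (√(PP G lam psi x y) - √(1 / dg G x)) ^ 2 ≤ KL G lam psi x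

/-- (C2) the forest inequality -/
def StForest : Prop := ∀ (V : Type) [Fintype V] (T : SimpleGraph V), T.IsTree →
  ∀ (m : V → V → ℝ) (M : V → ℝ), (∀ x y, m x y = m y x) → (∀ x, 0 ≤ M x) →
  (∀ x y, T.Adj x y → m x y ≤ M x) → ∑ x, ∑ y, aa T x y * m x y ≤ 2 * ∑ x, M x

/-- (C3) a small gain forces leaves of large mass -/
def StMass : Prop := ∀ (V : Type) [Fintype V] (T : SimpleGraph V) (lam : ℝ) (psi : V → ℝ),
  T.IsTree → 3 ≤ Fintype.card V → Perron T lam psi → 21 / 5 ≤ lam ^ 2 →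
  kap T lam psi ≤ 1 / 10 ^ 9 → 3 / 1000 ≤ piL T psi

/-- (C4) leaves of large mass force a vertex with many leaves -/
def StHub : Prop := ∀ (V : Type) [Fintype V] (T : SimpleGraph V) (lam : ℝ) (psi : V → ℝ),
  T.IsTree → 3 ≤ Fintype.card V → Perron T lam psi → 21 / 5 ≤ lam ^ 2 → 3 / 1000 ≤ piL T psi →
  ∃ u, u ∉ lv T ∧ 3 / 1000 * lam ^ 2 ≤ kl T u

/-- (C5) lower bound for the gain -/
def StGain : Prop := ∀ (V : Type) [Fintype V] (T : SimpleGraph V) (lam : ℝ) (psi : V → ℝ),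
  T.IsTree → 3 ≤ Fintype.card V → Up T → Perron T lam psi →
  piL T psi / (1000 * lam ^ 2) ≤ kap T lam psi

/-- (C6) the eigenvalue of a tree with at least five leaves -/
def StLam : Prop := ∀ (V : Type) [Fintype V] (T : SimpleGraph V) (lam : ℝ) (psi : V → ℝ),
  T.IsTree → 5 ≤ (lv T).card → Perron T lam psi → 21 / 5 ≤ lam ^ 2

/-! ### Part D: walks -/

/-- (D1) homomorphisms of a path -/
def StPath : Prop := ∀ (V : Type) [Fintype V] (G : SimpleGraph V), ∃ s : ℕ → V → ℝ,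
  (∀ x, s 0 x = 1) ∧ (∀ k x, s (k + 1) x = ∑ y, aa G x y * s k y) ∧
  ∀ k, (Nat.card (SimpleGraph.pathGraph (k + 1) →g G) : ℝ) = ∑ x, s k x

/-- (D2) upper bound for the number of walks -/
def StWalk : Prop := ∀ (V : Type) [Fintype V] (T : SimpleGraph V) (lam : ℝ) (psi : V → ℝ),
  T.IsTree → 2 ≤ Fintype.card V → Perron T lam psi → 2 < lam → ∀ k : ℕ,
  (Nat.card (SimpleGraph.pathGraph (k + 1) →g T) : ℝ) ≤
    2 ^ k * Fintype.card V + (2 * ((lv T).card : ℝ) ^ 2) / (lam - 2) ^ 2 * lam ^ k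

/-! ### The theorem -/

/-- (F) -/
def StFinal : Prop := ∃ c C : ℝ, 0 < c ∧ 0 < C ∧ ∀ (V : Type) [Fintype V] (T : SimpleGraph V),
  T.IsTree → 5 ≤ (lv T).card →
  (Nat.card (SimpleGraph.pathGraph (Fintype.card V) →g T) : ℝ) * Real.exp (c * √((lv T).card)) ≤
    C * Nat.card (T →g T)

end Pool.Agent.Lib.MP_4e7250_co
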