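import Pool.Agent.Lib.MP_4e7250_co.Stmts

/-! Removing a set of leaves of a tree. -/

namespace Pool.Agent.Lib.MP_4e7250_co

open Finset

namespace TremAux

open Classical in
/-- the retraction onto the complement of `F` -/
noncomputable def ret {W : Type} {S : SimpleGraph W} {F : Finset W}
    (h : ∀ v ∈ F, ∃ p, p ∉ F ∧ ∀ u, S.Adj v u ↔ u = p) (v : W) : ↥((F : Set W)ᶜ) :=
  if hv : v ∈ F then ⟨(h v hv).choose, fun h1 => (h v hv).choose_spec.1 (Finset.mem_coe.1 h1)⟩
  else ⟨v, fun h1 => hv (Finset.mem_coe.1 h1)⟩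

lemma ret_of_not_mem {W : Type} {S : SimpleGraph W} {F : Finset W}
    (h : ∀ v ∈ F, ∃ p, p ∉ F ∧ ∀ u, S.Adj v u ↔ u = p) {v : W} (hv : v ∉ F) :
    (ret h v : W) = v := by
  rw [ret, dif_neg hv]

lemma ret_of_mem {W : Type} {S : SimpleGraph W} {F : Finset W}
    (h : ∀ v ∈ F, ∃ p, p ∉ F ∧ ∀ u, S.Adj v u ↔ u = p) {v u : W} (hv : v ∈ F)
    (hu : S.Adj v u) : (ret h v : W) = u := by
  rw [ret, dif_pos hv]
  exact (((h v hv).choose_spec.2 u).1 hu).symm

lemma reach {W : Type} {S : SimpleGraph W} {F : Finset W}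
    (h : ∀ v ∈ F, ∃ p, p ∉ F ∧ ∀ u, S.Adj v u ↔ u = p) {u v : W} (w : S.Walk u v) :
    (S.induce (F : Set W)ᶜ).Reachable (ret h u) (ret h v) := by
  induction w with
  | nil => exact SimpleGraph.Reachable.refl _
  | @cons a b c hab _ ih =>
    refine SimpleGraph.Reachable.trans ?_ ih
    by_cases ha : a ∈ F
    · have hb : b ∉ F := by
        obtain ⟨p, hp, hp'⟩ := h a ha
        rw [(hp' b).1 hab]
        exact hp
      have e : ret h a = ret h b := by
        apply Subtype.ext
        rw [ret_of_mem h ha hab, ret_of_not_mem h hb]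
      rw [e]
    · by_cases hb : b ∈ F
      · have e : ret h a = ret h b := by
          apply Subtype.ext
          rw [ret_of_mem h hb hab.symm, ret_of_not_mem h ha]
        rw [e]
      · apply SimpleGraph.Adj.reachable
        rw [SimpleGraph.induce_adj, ret_of_not_mem h ha, ret_of_not_mem h hb]
        exact hab

end TremAux

theorem thTrem : StTrem := by
  intro W _ S F hS h
  refine ⟨?_, ?_⟩
  · have hne : Nonempty ↥((F : Set W)ᶜ) := by
      obtain ⟨v⟩ := hS.1.nonempty
      exact ⟨TremAux.ret h v⟩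
    refine { preconnected := ?_, nonempty := hne }
    intro a b
    obtain ⟨w⟩ := hS.1.preconnected (a : W) (b : W)
    have h1 := TremAux.reach h w
    have ea : TremAux.ret h (a : W) = a := by
      apply Subtype.ext
      exact TremAux.ret_of_not_mem h fun h2 => a.2 (Finset.mem_coe.2 h2)
    have eb : TremAux.ret h (b : W) = b := by
      apply Subtype.ext
      exact TremAux.ret_of_not_mem h fun h2 => b.2 (Finset.mem_coe.2 h2)
    rwa [ea, eb] at h1
  · exact hS.2.induce _

end Pool.Agent.Lib.MP_4e7250_co
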