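import Pool.Agent.Lib.MP_4e7250_co.Stmts

/-! A vertex with many leaves is moved away from the leaves (B2). -/

namespace Pool.Agent.Lib.MP_4e7250_co

open Finset

namespace UpgAux

theorem mem_lv {V : Type} [Fintype V] (G : SimpleGraph V) (x : V) : x ∈ lv G ↔ IsLeaf G x := by
  unfold lv
  simp

open Classical in
theorem dg_eq {V : Type} [Fintype V] (G : SimpleGraph V) (x : V) :
    dg G x = ((univ.filter fun y => G.Adj x y).card : ℝ) := by
  rw [dg, Finset.card_filter, Nat.cast_sum]
  refine sum_congr rfl fun y _ => ?_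
  rw [aa]
  split_ifs <;> simp

open Classical in
/-- The map `Φ`. -/
noncomputable def Phi {W V : Type} [Fintype V] (G : SimpleGraph V) (u v : W) (y : V → V)
    (f : W → V) : W → V :=
  if f u ∈ lv G then Function.update f u (y (f v)) else f

open Classical in
theorem Phi_of_ne {W V : Type} [Fintype V] (G : SimpleGraph V) (u v : W) (y : V → V)
    (f : W → V) {a : W} (ha : a ≠ u) : Phi G u v y f a = f a := by
  unfold Phi
  split_ifs
  · exact Function.update_of_ne ha _ _
  · rfl

open Classical in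
theorem Phi_hom {W V : Type} [Fintype V] (S : SimpleGraph W) (G : SimpleGraph V) (u v : W)
    (y : V → V) (huv : S.Adj u v)
    (hy : ∀ x ∈ lv G, ∀ c, G.Adj x c → G.Adj c (y c) ∧ y c ∉ lv G)
    (f : W → V) (hf : IsHom S G f) : IsHom S G (Phi G u v y f) := by
  by_cases h : f u ∈ lv G
  · have hadj : G.Adj (f u) (f v) := hf u v huv
    obtain ⟨h1, -⟩ := hy (f u) h (f v) hadj
    obtain ⟨p, hp⟩ := (mem_lv G (f u)).1 h
    have hv : f v = p := (hp _).1 hadj
    have hnb : ∀ b, S.Adj u b → f b = f v := fun b hb => ((hp _).1 (hf u b hb)).trans hv.symm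
    have hu : Phi G u v y f u = y (f v) := by
      unfold Phi
      rw [if_pos h, Function.update_self]
    intro a b hab
    by_cases ha : a = u
    · subst ha
      have hb : b ≠ a := fun hba => S.ne_of_adj hab hba.symm
      rw [hu, Phi_of_ne G a v y f hb, hnb b hab]
      exact h1.symm
    · by_cases hb : b = u
      · subst hb
        rw [hu, Phi_of_ne G b v y f ha, hnb a hab.symm]
        exact h1
      · rw [Phi_of_ne G u v y f ha, Phi_of_ne G u v y f hb]
        exact hf a b hab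
  · have : Phi G u v y f = f := by
      unfold Phi
      rw [if_neg h]
    rw [this]
    exact hf

open Classical in
/-- The main inequality. -/
theorem main {W V : Type} [Fintype W] [Fintype V] (S : SimpleGraph W) (G : SimpleGraph V)
    (u v : W) (huv : S.Adj u v) (y : V → V)
    (hy : ∀ x ∈ lv G, ∀ c, G.Adj x c → G.Adj c (y c) ∧ y c ∉ lv G)
    (w w' : W → V → ℝ) (hw : ∀ a x, 0 ≤ w a x) (hw' : ∀ a x, 0 ≤ w' a x)
    (hne : ∀ a x, a ≠ u → w' a x = w a x)
    (hnl : ∀ x, x ∉ lv G → w' u x = w u x)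
    (hl : ∀ x z, x ∈ lv G → z ∉ lv G → w' u x ≤ w u z)
    (B : ℝ) (hB : ∀ c, dg G c ≤ B) :
    ZZ S G w' ≤ B * ZZ S G w := by
  have hne' : v ≠ u := (S.ne_of_adj huv).symm
  set H : Finset (W → V) := univ.filter (fun f => IsHom S G f) with hH
  have hZ : ∀ x : W → V → ℝ, ZZ S G x = ∑ f ∈ H, ∏ a, x a (f a) := by
    intro x
    unfold ZZ
    rw [hH, Finset.sum_filter]
  have hmaps : ∀ f ∈ H, Phi G u v y f ∈ H := by
    intro f hf
    rw [hH, mem_filter] at hf ⊢
    exact ⟨mem_univ _, Phi_hom S G u v y huv hy f hf.2⟩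
  have h1 : ∀ f ∈ H, ∏ a, w' a (f a) ≤ ∏ a, w a (Phi G u v y f a) := by
    intro f hf
    rw [hH, mem_filter] at hf
    refine Finset.prod_le_prod (fun a _ => hw' a _) fun a _ => ?_
    by_cases ha : a = u
    · subst ha
      by_cases h : f a ∈ lv G
      · have hu : Phi G a v y f a = y (f v) := by
          unfold Phi
          rw [if_pos h, Function.update_self]
        rw [hu]
        exact hl _ _ h (hy (f a) h (f v) (hf.2 a v huv)).2
      · have hu : Phi G a v y f a = f a := by
          unfold Phi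
          rw [if_neg h]
        rw [hu]
        exact le_of_eq (hnl _ h)
    · rw [Phi_of_ne G u v y f ha]
      exact le_of_eq (hne a _ ha)
  rw [hZ, hZ, Finset.mul_sum]
  refine le_trans (Finset.sum_le_sum h1) ?_
  rw [← Finset.sum_fiberwise_of_maps_to hmaps]
  refine Finset.sum_le_sum fun g hg => ?_
  have h2 : ∑ f ∈ H with Phi G u v y f = g, ∏ a, w a (Phi G u v y f a) =
      ((H.filter (fun f => Phi G u v y f = g)).card : ℝ) * ∏ a, w a (g a) := by
    rw [← nsmul_eq_mul, ← Finset.sum_const]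
    refine Finset.sum_congr rfl fun f hf => ?_
    rw [(mem_filter.1 hf).2]
  rw [h2]
  refine mul_le_mul_of_nonneg_right ?_ (Finset.prod_nonneg fun a _ => hw a _)
  refine le_trans ?_ (hB (g v))
  rw [dg_eq, Nat.cast_le]
  refine Finset.card_le_card_of_injOn (fun f => f u) ?_ ?_
  · intro f hf
    have hf' := mem_filter.1 (Finset.mem_coe.1 hf)
    have hfH := (mem_filter.1 hf'.1).2
    have hv : g v = f v := by
      rw [← hf'.2]
      exact Phi_of_ne G u v y f hne'
    rw [Finset.mem_coe, mem_filter]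
    refine ⟨mem_univ _, ?_⟩
    rw [hv]
    exact (hfH u v huv).symm
  · intro f hf f' hf' hff
    have h3 := mem_filter.1 (Finset.mem_coe.1 hf)
    have h4 := mem_filter.1 (Finset.mem_coe.1 hf')
    funext a
    by_cases ha : a = u
    · subst ha
      exact hff
    · rw [← Phi_of_ne G u v y f ha, ← Phi_of_ne G u v y f' ha, h3.2, h4.2]

open Classical in
theorem card_rest {W : Type} [Fintype W] (F : Finset W) [Fintype ↥((F : Set W)ᶜ)] :
    Fintype.card ↥((F : Set W)ᶜ) = Fintype.card W - F.card := by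
  rw [← Finset.card_compl]
  exact Fintype.card_of_subtype Fᶜ (by intro x; simp)

open Classical in
theorem sum_fibres {W : Type} [Fintype W] (F : Finset W) [Fintype ↥((F : Set W)ᶜ)] (q : W → W)
    (hq : ∀ v ∈ F, q v ∉ F) :
    ∑ a : ↥((F : Set W)ᶜ), ((F.filter (fun v => q v = (a : W))).card : ℝ) = F.card := by
  have h1 : ∑ a ∈ Fᶜ, ((F.filter (fun v => q v = a)).card : ℝ) =
      ∑ a : ↥((F : Set W)ᶜ), ((F.filter (fun v => q v = (a : W))).card : ℝ) := by
    rw [Finset.sum_subtype (p := fun a => a ∈ ((F : Set W)ᶜ)) (Fᶜ) (by intro x; simp)]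
  rw [← h1]
  have h2 := Finset.card_eq_sum_card_fiberwise (f := q) (s := F) (t := Fᶜ)
    (fun v hv => by simpa using hq v hv)
  rw [h2]
  push_cast
  rfl

end UpgAux

open Classical in
theorem thUpg (hB : StBasic) (hZ : StZrem) (hT : StTrem) (hJ : StJen) : StUpg := by
  intro W V _ _ T G lam psi hTt hW hG hV hUp hP u v huv hu hv
  have hconn : T.Connected := hTt.1
  have hex : ∀ v : W, ∃ p : W, v ∈ lv T → ∀ u, T.Adj v u ↔ u = p := by
    intro v
    by_cases h : v ∈ lv T
    · obtain ⟨p, hp⟩ := (UpgAux.mem_lv T v).1 h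
      exact ⟨p, fun _ => hp⟩
    · exact ⟨v, fun h' => absurd h' h⟩
  choose q hq using hex
  have hqn : ∀ v ∈ lv T, q v ∉ lv T := by
    intro v hv
    have had : T.Adj v (q v) := (hq v hv _).2 rfl
    exact (hB W T).2.2.2.1 hconn hW v hv (q v) had
  have hZ1 := hZ W V T G (lv T) (fun _ _ => 1) q (fun v hv => ⟨hqn v hv, hq v hv⟩)
  have hT1 := hT W T (lv T) hTt (fun v hv => ⟨q v, hqn v hv, hq v hv⟩)
  have hdg : ∀ x, 1 ≤ dg G x := (hB V G).2.2.1 hG (by omega)
  have hdg2 : ∀ x, x ∉ lv G → 2 ≤ dg G x := (hB V G).2.2.2.2.1 hG (by omega)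
  have hdgl : ∀ x, x ∈ lv G → dg G x = 1 := fun x => ((hB V G).2.1 x).1
  have hlam : 0 < lam := by
    apply (hB V G).2.2.2.2.2.2.1 lam psi hP
    have : Nontrivial V := Fintype.one_lt_card_iff_nontrivial.1 (by omega)
    obtain ⟨x⟩ := hG.nonempty
    obtain ⟨y, hy⟩ := hG.preconnected.exists_adj_of_nontrivial x
    exact ⟨x, y, hy⟩
  -- the weights
  set k : ↥((lv T : Set W)ᶜ) → ℕ :=
    fun a => ((lv T).filter (fun v => q v = (a : W))).card with hk
  have hcount : (Nat.card (T →g G) : ℝ) = ZZ (T.induce (lv T : Set W)ᶜ) G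
      (fun a x => dg G x ^ k a) := by
    rw [← (hB V G).1 W T, hZ1]
    congr 1
    funext a x
    simp [dg, hk]
  have hu' : u ∈ ((lv T : Set W)ᶜ) := hu
  have hv' : v ∈ ((lv T : Set W)ᶜ) := hv
  have hku : k ⟨u, hu'⟩ = kl T u := by
    have hf : (lv T).filter (fun z => q z = u) = (lv T).filter (fun z => T.Adj u z) := by
      ext z
      simp only [Finset.mem_filter]
      constructor
      · rintro ⟨hz, h⟩
        exact ⟨hz, ((hq z hz u).2 h.symm).symm⟩
      · rintro ⟨hz, h⟩
        exact ⟨hz, ((hq z hz u).1 h.symm).symm⟩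
    have h1 : k ⟨u, hu'⟩ = ((lv T).filter (fun z => q z = u)).card := rfl
    rw [h1, hf]
    rfl
  have hexy : ∀ c : V, ∃ y : V, ∀ x ∈ lv G, G.Adj x c → G.Adj c y ∧ y ∉ lv G := by
    intro c
    by_cases h : ∃ x ∈ lv G, G.Adj x c
    · obtain ⟨x, hx, hxc⟩ := h
      obtain ⟨y, hy⟩ := hUp x hx c hxc
      exact ⟨y, fun _ _ _ => hy⟩
    · exact ⟨c, fun x hx hxc => absurd ⟨x, hx, hxc⟩ h⟩
  choose y hy using hexy
  set w' : ↥((lv T : Set W)ᶜ) → V → ℝ := fun a x =>
    dg G x ^ k a * (if a = ⟨u, hu'⟩ ∧ x ∈ lv G then 2 ^ k a else 1) with hw'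
  have hpos : ∀ a x, 0 < w' a x := by
    intro a x
    rw [hw']
    refine mul_pos (pow_pos (lt_of_lt_of_le one_pos (hdg x)) _) ?_
    split_ifs
    · positivity
    · exact one_pos
  have hmain : ZZ (T.induce (lv T : Set W)ᶜ) G w' ≤
      lam ^ 2 * ZZ (T.induce (lv T : Set W)ᶜ) G (fun a x => dg G x ^ k a) := by
    refine UpgAux.main (T.induce (lv T : Set W)ᶜ) G ⟨u, hu'⟩ ⟨v, hv'⟩ huv y
      (fun x hx c hxc => hy c x hx hxc) _ w' ?_ (fun a x => (hpos a x).le) ?_ ?_ ?_ _ ?_
    · intro a x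
      exact pow_nonneg (le_trans zero_le_one (hdg x)) _
    · intro a x ha
      simp only [hw']
      rw [if_neg (fun h => ha h.1), mul_one]
    · intro x hx
      simp only [hw']
      rw [if_neg (fun h => hx h.2), mul_one]
    · intro x z hx hz
      simp only [hw']
      rw [if_pos (⟨trivial, hx⟩ : True ∧ x ∈ lv G), hdgl x hx, one_pow, one_mul]
      exact pow_le_pow_left₀ (by norm_num) (hdg2 z hz) _
    · intro c
      exact (hB V G).2.2.2.2.2.1 lam psi hP c
  have hJ1 := hJ ↥((lv T : Set W)ᶜ) V (T.induce (lv T : Set W)ᶜ) G lam psi hT1 hP hlam w' hpos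
  have hexp : ∑ a : ↥((lv T : Set W)ᶜ), ∑ x, psi x ^ 2 * Real.log (w' a x) =
      (lv T).card * ∑ x, psi x ^ 2 * Real.log (dg G x) + kl T u * piL G psi * Real.log 2 := by
    have h1 : ∀ (a : ↥((lv T : Set W)ᶜ)) (x : V), psi x ^ 2 * Real.log (w' a x) =
        (k a : ℝ) * (psi x ^ 2 * Real.log (dg G x)) +
          (if a = ⟨u, hu'⟩ then (if x ∈ lv G then psi x ^ 2 * ((k a : ℝ) * Real.log 2) else 0)
            else 0) := by
      intro a x
      have hx : dg G x ^ k a ≠ 0 := (pow_pos (lt_of_lt_of_le one_pos (hdg x)) _).ne'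
      simp only [hw']
      by_cases ha : a = ⟨u, hu'⟩
      · by_cases hxl : x ∈ lv G
        · rw [if_pos ⟨ha, hxl⟩, if_pos ha, if_pos hxl,
            Real.log_mul hx (by positivity), Real.log_pow, Real.log_pow]
          ring
        · rw [if_neg (fun h => hxl h.2), if_pos ha, if_neg hxl, mul_one, Real.log_pow]
          ring
      · rw [if_neg (fun h => ha h.1), if_neg ha, mul_one, Real.log_pow]
        ring
    simp only [h1, Finset.sum_add_distrib]
    congr 1
    · rw [← UpgAux.sum_fibres (lv T) q hqn, Finset.sum_mul]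
      refine Finset.sum_congr rfl fun a _ => ?_
      rw [Finset.mul_sum]
    · rw [Finset.sum_comm]
      simp only [Finset.sum_ite_eq', Finset.mem_univ, if_true]
      rw [← Finset.sum_filter, ← hku]
      unfold piL
      rw [mul_assoc, mul_comm (∑ x ∈ lv G, psi x ^ 2), ← mul_assoc, Finset.mul_sum]
      have : univ.filter (fun x => x ∈ lv G) = lv G := by
        ext x
        simp
      rw [this]
      refine Finset.sum_congr rfl fun x _ => ?_
      ring
  rw [hcount]
  refine le_trans ?_ (le_trans hJ1 hmain)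
  rw [hexp, UpgAux.card_rest]
  have hne : 1 ≤ Fintype.card W - (lv T).card := by
    rw [← UpgAux.card_rest (lv T)]
    have : Nonempty ↥((lv T : Set W)ᶜ) := hT1.1.nonempty
    exact Fintype.card_pos
  have hkk : (∑ x, psi x ^ 2 * Real.log (dg G x)) = kap G lam psi + Real.log lam := by
    unfold kap
    ring
  rw [hkk, mul_add, add_right_comm, Real.exp_add (_ + _) _]
  have hl : Real.exp (((lv T).card : ℝ) * Real.log lam) = lam ^ (lv T).card := by
    rw [mul_comm, Real.exp_mul, Real.exp_log hlam, Real.rpow_natCast]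
  rw [hl]
  have hsplit : Fintype.card W - 1 = (Fintype.card W - (lv T).card - 1) + (lv T).card := by omega
  rw [hsplit, pow_add]
  apply le_of_eq
  ring

end Pool.Agent.Lib.MP_4e7250_co
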