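import Pool.Agent.Lib.MP_4e7250_co.Stmts

/-! (D2) An upper bound for the number of walks of a tree. -/

namespace Pool.Agent.Lib.MP_4e7250_co

open Finset

namespace WalkAux

variable {V : Type} [Fintype V]

/-- The adjacency matrix. -/
noncomputable def AM (G : SimpleGraph V) : Matrix V V ℝ := Matrix.of (fun x y => aa G x y)

omit [Fintype V] in
theorem aa_comm (G : SimpleGraph V) (x y : V) : aa G x y = aa G y x := by
  unfold aa
  by_cases h : G.Adj x y
  · rw [if_pos h, if_pos h.symm]
  · rw [if_neg h, if_neg fun q => h q.symm]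

omit [Fintype V] in
theorem aa_nonneg (G : SimpleGraph V) (x y : V) : 0 ≤ aa G x y := by
  unfold aa
  split <;> norm_num

open Classical in
theorem AM_transpose (G : SimpleGraph V) : (AM G).transpose = AM G := by
  ext x y
  simp [AM, Matrix.transpose_apply, aa_comm G y x]

open Classical in
theorem pow_nonneg' (G : SimpleGraph V) (k : ℕ) : ∀ x y, 0 ≤ (AM G ^ k) x y := by
  induction k with
  | zero =>
      intro x y
      rw [pow_zero, Matrix.one_apply]
      split <;> norm_num
  | succ k ih =>
      intro x y
      rw [pow_succ, Matrix.mul_apply]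
      exact Finset.sum_nonneg fun z _ => mul_nonneg (ih x z) (aa_nonneg G z y)

open Classical in
theorem pow_symm (G : SimpleGraph V) (k : ℕ) (x y : V) : (AM G ^ k) x y = (AM G ^ k) y x := by
  have h : ((AM G) ^ k).transpose = AM G ^ k := by
    rw [Matrix.transpose_pow, AM_transpose]
  have := congrFun (congrFun h x) y
  rw [Matrix.transpose_apply] at this
  exact this.symm

open Classical in
theorem pow_psi (G : SimpleGraph V) {lam : ℝ} {psi : V → ℝ} (h : Perron G lam psi) (k : ℕ) :
    ∀ x, ∑ y, (AM G ^ k) x y * psi y = lam ^ k * psi x := by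
  induction k with
  | zero =>
      intro x
      rw [pow_zero, pow_zero, one_mul]
      simp [Matrix.one_apply]
  | succ k ih =>
      intro x
      rw [pow_succ']
      have : ∀ y, (AM G * AM G ^ k) x y * psi y =
          ∑ z, aa G x z * ((AM G ^ k) z y * psi y) := by
        intro y
        rw [Matrix.mul_apply, Finset.sum_mul]
        refine Finset.sum_congr rfl fun z _ => ?_
        simp only [AM, Matrix.of_apply]
        ring
      rw [Finset.sum_congr rfl fun y _ => this y, Finset.sum_comm]
      have : ∀ z, ∑ y, aa G x z * ((AM G ^ k) z y * psi y) = lam ^ k * (aa G x z * psi z) := by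
        intro z
        rw [← Finset.mul_sum, ih z]
        ring
      rw [Finset.sum_congr rfl fun z _ => this z, ← Finset.mul_sum, h.eig x]
      ring

open Classical in
/-- The quadratic form of a power of the adjacency matrix. -/
theorem quad_le (G : SimpleGraph V) {lam : ℝ} {psi : V → ℝ} (h : Perron G lam psi) (k : ℕ)
    (u : V → ℝ) : ∑ x, ∑ y, (AM G ^ k) x y * (u x * u y) ≤ (∑ x, u x ^ 2) * lam ^ k := by
  have h1 : ∑ x, ∑ y, (AM G ^ k) x y * (u x * u y) ≤
      ∑ x, ∑ y, (AM G ^ k) x y * ((u x ^ 2 * (psi y / psi x) + u y ^ 2 * (psi x / psi y)) / 2) := by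
    refine Finset.sum_le_sum fun x _ => Finset.sum_le_sum fun y _ => ?_
    refine mul_le_mul_of_nonneg_left ?_ (pow_nonneg' G k x y)
    have hx := h.pos x
    have hy := h.pos y
    have : (u x ^ 2 * (psi y / psi x) + u y ^ 2 * (psi x / psi y)) / 2 - u x * u y =
        (u x * psi y - u y * psi x) ^ 2 / (2 * (psi x * psi y)) := by
      field_simp
      ring
    have h2 : 0 ≤ (u x * psi y - u y * psi x) ^ 2 / (2 * (psi x * psi y)) := by positivity
    linarith
  refine h1.trans (le_of_eq ?_)
  have h3 : ∀ x, ∑ y, (AM G ^ k) x y * (u x ^ 2 * (psi y / psi x)) = u x ^ 2 * lam ^ k := by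
    intro x
    have hx := (h.pos x).ne'
    have : ∀ y, (AM G ^ k) x y * (u x ^ 2 * (psi y / psi x)) =
        (u x ^ 2 / psi x) * ((AM G ^ k) x y * psi y) := by
      intro y
      field_simp
    rw [Finset.sum_congr rfl fun y _ => this y, ← Finset.mul_sum, pow_psi G h k x]
    field_simp
  have h4 : ∑ x, ∑ y, (AM G ^ k) x y * (u y ^ 2 * (psi x / psi y)) =
      ∑ x, ∑ y, (AM G ^ k) x y * (u x ^ 2 * (psi y / psi x)) := by
    rw [Finset.sum_comm]
    refine Finset.sum_congr rfl fun x _ => Finset.sum_congr rfl fun y _ => ?_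
    rw [pow_symm G k y x]
  have h5 : ∑ x, ∑ y, (AM G ^ k) x y * ((u x ^ 2 * (psi y / psi x) + u y ^ 2 * (psi x / psi y)) / 2)
      = (∑ x, ∑ y, (AM G ^ k) x y * (u x ^ 2 * (psi y / psi x)) +
        ∑ x, ∑ y, (AM G ^ k) x y * (u y ^ 2 * (psi x / psi y))) / 2 := by
    rw [← Finset.sum_add_distrib, Finset.sum_div]
    refine Finset.sum_congr rfl fun x _ => ?_
    rw [← Finset.sum_add_distrib, Finset.sum_div]
    refine Finset.sum_congr rfl fun y _ => ?_
    ring
  rw [h5, h4, Finset.sum_congr rfl fun x _ => h3 x, Finset.sum_mul]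
  ring

end WalkAux

open WalkAux in
open Classical in
theorem thWalk (hP : StPath) (hC : StCnt) : StWalk := by
  intro V _ T lam psi hT hV hpsi hlam k
  obtain ⟨s, hs0, hs1, hs⟩ := hP V T
  obtain ⟨hc1, hc2⟩ := hC V T hT
  have hU := hc2 hV
  set u : V → ℝ := fun x => dg T x - 2 with hu
  set U : ℝ := ∑ x, u x ^ 2 with hUdef
  have hU0 : 0 ≤ U := Finset.sum_nonneg fun x _ => sq_nonneg _
  have hl2 : 0 < lam - 2 := by linarith
  -- the differences
  have hv : ∀ k x, s (k + 1) x - 2 * s k x = ∑ y, (AM T ^ k) x y * u y := by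
    intro k
    induction k with
    | zero =>
        intro x
        rw [hs1 0 x, hs0 x, pow_zero]
        simp only [hs0, mul_one, Matrix.one_apply, ite_mul, one_mul, zero_mul,
          Finset.sum_ite_eq, Finset.mem_univ, if_true]
        rw [hu]
        rfl
    | succ k ih =>
        intro x
        rw [hs1 (k + 1) x, hs1 k x, pow_succ', Finset.mul_sum, ← Finset.sum_sub_distrib]
        have : ∀ y, (AM T * AM T ^ k) x y * u y = ∑ z, aa T x z * ((AM T ^ k) z y * u y) := by
          intro y
          rw [Matrix.mul_apply, Finset.sum_mul]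
          refine Finset.sum_congr rfl fun z _ => ?_
          simp only [AM, Matrix.of_apply]
          ring
        rw [Finset.sum_congr rfl fun y _ => this y, Finset.sum_comm]
        refine Finset.sum_congr rfl fun z _ => ?_
        rw [← Finset.mul_sum, ← ih z]
        ring
  set S : ℕ → ℝ := fun k => ∑ x, s k x with hS
  set D : ℕ → ℝ := fun k => S (k + 1) - 2 * S k with hD
  have hDk : ∀ k, D k = ∑ x, ∑ y, (AM T ^ k) x y * u y := by
    intro k
    rw [hD]
    simp only [hS]
    rw [Finset.mul_sum, ← Finset.sum_sub_distrib]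
    exact Finset.sum_congr rfl fun x _ => hv k x
  have hstep : ∀ k, D (k + 1) ≤ 2 * D k + U * lam ^ k := by
    intro k
    have h1 : D (k + 1) - 2 * D k = ∑ x, ∑ y, (AM T ^ k) x y * (u x * u y) := by
      rw [hDk (k + 1), hDk k, pow_succ']
      have h2 : ∑ x, ∑ y, (AM T * AM T ^ k) x y * u y =
          ∑ z, dg T z * ∑ y, (AM T ^ k) z y * u y := by
        have : ∀ x, ∑ y, (AM T * AM T ^ k) x y * u y =
            ∑ z, aa T x z * ∑ y, (AM T ^ k) z y * u y := by
          intro x
          have : ∀ y, (AM T * AM T ^ k) x y * u y = ∑ z, aa T x z * ((AM T ^ k) z y * u y) := by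
            intro y
            rw [Matrix.mul_apply, Finset.sum_mul]
            refine Finset.sum_congr rfl fun z _ => ?_
            simp only [AM, Matrix.of_apply]
            ring
          rw [Finset.sum_congr rfl fun y _ => this y, Finset.sum_comm]
          exact Finset.sum_congr rfl fun z _ => by rw [Finset.mul_sum]
        rw [Finset.sum_congr rfl fun x _ => this x, Finset.sum_comm]
        refine Finset.sum_congr rfl fun z _ => ?_
        rw [← Finset.sum_mul]
        congr 1
        unfold dg
        exact Finset.sum_congr rfl fun x _ => aa_comm T x z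
      rw [h2, Finset.mul_sum, ← Finset.sum_sub_distrib]
      refine Finset.sum_congr rfl fun z _ => ?_
      rw [← sub_mul, Finset.mul_sum]
      refine Finset.sum_congr rfl fun y _ => ?_
      rw [hu]
      ring
    have h3 := quad_le T hpsi k u
    linarith
  have hD0 : D 0 = -2 := by
    rw [hDk 0, pow_zero]
    simp only [Matrix.one_apply, ite_mul, one_mul, zero_mul, Finset.sum_ite_eq, Finset.mem_univ,
      if_true]
    exact hc1
  have hDle : ∀ k, D k ≤ U * lam ^ k / (lam - 2) := by
    intro k
    induction k with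
    | zero =>
        rw [hD0, pow_zero, mul_one]
        have : 0 ≤ U / (lam - 2) := by positivity
        linarith
    | succ k ih =>
        refine (hstep k).trans ?_
        have : U * lam ^ (k + 1) / (lam - 2) = 2 * (U * lam ^ k / (lam - 2)) + U * lam ^ k := by
          field_simp
          ring
        rw [this]
        linarith
  have hSle : ∀ k, S k ≤ 2 ^ k * Fintype.card V + U / (lam - 2) ^ 2 * lam ^ k := by
    intro k
    induction k with
    | zero =>
        have : S 0 = Fintype.card V := by
          simp [hS, hs0]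
        rw [this]
        have : 0 ≤ U / (lam - 2) ^ 2 * lam ^ 0 := by positivity
        linarith
    | succ k ih =>
        have h1 : S (k + 1) = 2 * S k + D k := by
          rw [hD]
          ring
        rw [h1]
        have h2 : 2 ^ (k + 1) * (Fintype.card V : ℝ) + U / (lam - 2) ^ 2 * lam ^ (k + 1) =
            2 * (2 ^ k * Fintype.card V + U / (lam - 2) ^ 2 * lam ^ k) +
              U * lam ^ k / (lam - 2) := by
          field_simp
          ring
        rw [h2]
        have := hDle k
        linarith
  rw [hs k]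
  refine (hSle k).trans ?_
  have hlk : 0 ≤ lam ^ k / (lam - 2) ^ 2 := by
    have : 0 ≤ lam := by linarith
    positivity
  have h6 : U / (lam - 2) ^ 2 * lam ^ k = U * (lam ^ k / (lam - 2) ^ 2) := by ring
  have h7 : (2 * ((lv T).card : ℝ) ^ 2) / (lam - 2) ^ 2 * lam ^ k =
      (2 * ((lv T).card : ℝ) ^ 2) * (lam ^ k / (lam - 2) ^ 2) := by ring
  rw [h6, h7]
  have := mul_le_mul_of_nonneg_right hU hlk
  linarith

end Pool.Agent.Lib.MP_4e7250_co
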