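import Pool.Agent.Lib.MP_4e7250_co.Stmts

/-! (A3) Removing a set of leaves in a weighted count of homomorphisms. -/

namespace Pool.Agent.Lib.MP_4e7250_co

open Finset

namespace ZremAux

variable {W V : Type}

theorem isHom_iff (S : SimpleGraph W) (G : SimpleGraph V) (F : Finset W) (q : W → W)
    (hq : ∀ v ∈ F, q v ∉ F ∧ ∀ u, S.Adj v u ↔ u = q v) (h : W → V) :
    IsHom S G h ↔ IsHom (S.induce (F : Set W)ᶜ) G (fun a => h a) ∧
      ∀ v : {v : W // ¬ v ∈ (F : Set W)ᶜ}, G.Adj (h (q v)) (h v) := by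
  constructor
  · intro hh
    refine ⟨fun a b hab => hh a b hab, fun v => ?_⟩
    have hv : (v : W) ∈ F := by
      have := v.2
      simpa using this
    exact (hh _ _ (((hq v hv).2 _).2 rfl)).symm
  · rintro ⟨h1, h2⟩ a b hab
    by_cases ha : a ∈ F
    · have hb : b = q a := ((hq a ha).2 b).1 hab
      subst hb
      exact (h2 ⟨a, by simpa using ha⟩).symm
    · by_cases hb : b ∈ F
      · have ha' : a = q b := ((hq b hb).2 a).1 hab.symm
        subst ha'
        exact h2 ⟨b, by simpa using hb⟩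
      · exact h1 ⟨a, by simpa using ha⟩ ⟨b, by simpa using hb⟩ hab

end ZremAux

open ZremAux in
theorem thZrem : StZrem := by
  classical
  intro W V _ _ S G F inst w q hq
  obtain rfl : inst = Subtype.fintype (fun x => x ∈ (F : Set W)ᶜ) := Subsingleton.elim _ _
  unfold ZZ
  -- abbreviations
  have hmem : ∀ v : {v : W // ¬ v ∈ (F : Set W)ᶜ}, (v : W) ∈ F := fun v => by
    have := v.2
    simpa using this
  have hq' : ∀ v : {v : W // ¬ v ∈ (F : Set W)ᶜ}, q v ∈ (F : Set W)ᶜ := fun v => by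
    simpa using (hq v (hmem v)).1
  rw [← (Equiv.piEquivPiSubtypeProd (fun a : W => a ∈ (F : Set W)ᶜ) (fun _ => V)).symm.sum_comp,
    Fintype.sum_prod_type]
  refine Finset.sum_congr (Finset.ext fun _ => by simp) fun f _ => ?_
  -- the sum over the values on `F`
  have hterm : ∀ g : {v : W // ¬ v ∈ (F : Set W)ᶜ} → V,
      (if IsHom S G ((Equiv.piEquivPiSubtypeProd (fun a : W => a ∈ (F : Set W)ᶜ)
        (fun _ => V)).symm (f, g)) then
        ∏ a, w a ((Equiv.piEquivPiSubtypeProd (fun a : W => a ∈ (F : Set W)ᶜ)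
          (fun _ => V)).symm (f, g) a) else 0) =
      (if IsHom (S.induce (F : Set W)ᶜ) G f then
        ∏ a : {a : W // a ∈ (F : Set W)ᶜ}, w a (f a) else 0) *
        ∏ v : {v : W // ¬ v ∈ (F : Set W)ᶜ}, (aa G (f ⟨q v, hq' v⟩) (g v) * w v (g v)) := by
    intro g
    set h : W → V := (Equiv.piEquivPiSubtypeProd (fun a : W => a ∈ (F : Set W)ᶜ)
      (fun _ => V)).symm (f, g) with hh
    have h1 : ∀ a : {a : W // a ∈ (F : Set W)ᶜ}, h a = f a := by
      intro a
      have := congrArg (fun z => z.1 a) ((Equiv.piEquivPiSubtypeProd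
        (fun a : W => a ∈ (F : Set W)ᶜ) (fun _ => V)).apply_symm_apply (f, g))
      exact this
    have h2 : ∀ a : {a : W // ¬ a ∈ (F : Set W)ᶜ}, h a = g a := by
      intro a
      have := congrArg (fun z => z.2 a) ((Equiv.piEquivPiSubtypeProd
        (fun a : W => a ∈ (F : Set W)ᶜ) (fun _ => V)).apply_symm_apply (f, g))
      exact this
    have h3 : (fun a : ((F : Set W)ᶜ : Set W) => h a) = f := funext h1
    have h4 : IsHom S G h ↔ IsHom (S.induce (F : Set W)ᶜ) G f ∧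
        ∀ v : {v : W // ¬ v ∈ (F : Set W)ᶜ}, G.Adj (f ⟨q v, hq' v⟩) (g v) := by
      rw [isHom_iff S G F q hq h, h3]
      refine and_congr_right fun _ => forall_congr' fun v => ?_
      rw [h2 v, ← h1 ⟨q v, hq' v⟩]
    have h5 : ∏ a, w a (h a) = (∏ a : {a : W // a ∈ (F : Set W)ᶜ}, w a (f a)) *
        ∏ v : {v : W // ¬ v ∈ (F : Set W)ᶜ}, w v (g v) := by
      rw [← Fintype.prod_subtype_mul_prod_subtype (fun a : W => a ∈ (F : Set W)ᶜ)
        (fun a => w a (h a))]
      congr 1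
      · exact Finset.prod_congr rfl fun a _ => by rw [h1]
      · exact Finset.prod_congr rfl fun a _ => by rw [h2]
    rw [h5, Finset.prod_mul_distrib]
    by_cases hf : IsHom (S.induce (F : Set W)ᶜ) G f
    · rw [if_pos hf]
      by_cases hg : ∀ v : {v : W // ¬ v ∈ (F : Set W)ᶜ}, G.Adj (f ⟨q v, hq' v⟩) (g v)
      · rw [if_pos (h4.2 ⟨hf, hg⟩)]
        have : ∏ v : {v : W // ¬ v ∈ (F : Set W)ᶜ}, aa G (f ⟨q v, hq' v⟩) (g v) = 1 :=
          Finset.prod_eq_one fun v _ => by rw [aa, if_pos (hg v)]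
        rw [this, one_mul]
      · rw [if_neg fun hc => hg (h4.1 hc).2]
        push Not at hg
        obtain ⟨v, hv⟩ := hg
        have : ∏ v : {v : W // ¬ v ∈ (F : Set W)ᶜ}, aa G (f ⟨q v, hq' v⟩) (g v) = 0 :=
          Finset.prod_eq_zero (Finset.mem_univ v) (by rw [aa, if_neg hv])
        rw [this, zero_mul, mul_zero]
    · rw [if_neg hf, if_neg fun hc => hf (h4.1 hc).1, zero_mul]
  rw [Finset.sum_congr rfl fun g _ => hterm g, ← Finset.mul_sum]
  have hsum : ∑ g : {v : W // ¬ v ∈ (F : Set W)ᶜ} → V,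
      ∏ v : {v : W // ¬ v ∈ (F : Set W)ᶜ}, (aa G (f ⟨q v, hq' v⟩) (g v) * w v (g v)) =
      ∏ v : {v : W // ¬ v ∈ (F : Set W)ᶜ}, ∑ y, aa G (f ⟨q v, hq' v⟩) y * w v y := by
    rw [Finset.prod_univ_sum, Fintype.piFinset_univ]
  rw [hsum]
  -- regrouping
  let H : W → ℝ := fun v => if hv : q v ∈ (F : Set W)ᶜ then
    ∑ y, aa G (f ⟨q v, hv⟩) y * w v y else 1
  have hH : ∀ v : {v : W // ¬ v ∈ (F : Set W)ᶜ},
      ∑ y, aa G (f ⟨q v, hq' v⟩) y * w v y = H v := fun v => by
    simp only [H]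
    rw [dif_pos (hq' v)]
  have h6 : ∏ v : {v : W // ¬ v ∈ (F : Set W)ᶜ}, ∑ y, aa G (f ⟨q v, hq' v⟩) y * w v y =
      ∏ v ∈ F, H v := by
    rw [Finset.prod_subtype F (p := fun v => ¬ v ∈ (F : Set W)ᶜ) (fun v => by simp) H]
    exact Finset.prod_congr rfl fun v _ => hH v
  have h7 : ∏ v ∈ F, H v = ∏ a : {a : W // a ∈ (F : Set W)ᶜ},
      ∏ v ∈ F.filter (fun v => q v = a), ∑ y, aa G (f a) y * w v y := by
    rw [← Finset.prod_fiberwise_of_maps_to (s := F) (t := Finset.univ.filter fun a => a ∉ F)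
      (g := q) (fun v hv => by simpa using (hq v hv).1) H]
    rw [Finset.prod_subtype (Finset.univ.filter fun a => a ∉ F)
      (p := fun a => a ∈ (F : Set W)ᶜ) (fun a => by simp)
      (fun a => ∏ v ∈ F.filter (fun v => q v = a), H v)]
    refine Finset.prod_congr rfl fun a _ => Finset.prod_congr rfl fun v hv => ?_
    have hva : q v = a := (Finset.mem_filter.1 hv).2
    simp only [H]
    have ha : q v ∈ (F : Set W)ᶜ := by rw [hva]; exact a.2
    rw [dif_pos ha]
    have : (⟨q v, ha⟩ : {a : W // a ∈ (F : Set W)ᶜ}) = a := Subtype.ext hva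
    rw [this]
  rw [h6, h7]
  by_cases hf : IsHom (S.induce (F : Set W)ᶜ) G f
  · rw [if_pos hf, if_pos hf, ← Finset.prod_mul_distrib]
  · rw [if_neg hf, if_neg hf, zero_mul]

end Pool.Agent.Lib.MP_4e7250_co
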